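import Mathlib

/-!
# Base `2^b` digits: uniqueness of signed digits and the digit sum by one `mod`

Pure `Nat`/`Int` lemmas used to bound the Wiener norm of a packed integer polynomial.
-/

namespace Pool.Agent.H.MP_ce2c94_gt.h46

/-- uniqueness of signed digits -/
theorem dig_zero (B : ℤ) : ∀ (D : ℕ) (f : ℕ → ℤ), (∀ i < D, |f i| < B) →
    ∑ i ∈ Finset.range D, f i * B ^ i = 0 → ∀ i < D, f i = 0
  | 0, _, _, _, i, hi => absurd hi (Nat.not_lt_zero i)
  | D + 1, f, hf, h0, i, hi => by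
    have hB : 0 < B := lt_of_le_of_lt (abs_nonneg _) (hf 0 (Nat.succ_pos D))
    rw [Finset.sum_range_succ'] at h0
    have e1 : ∑ i ∈ Finset.range D, f (i + 1) * B ^ (i + 1)
        = B * ∑ i ∈ Finset.range D, f (i + 1) * B ^ i := by
      rw [Finset.mul_sum]
      exact Finset.sum_congr rfl fun j _ => by ring
    rw [e1] at h0
    have hd : B ∣ f 0 := ⟨-∑ i ∈ Finset.range D, f (i + 1) * B ^ i, by linarith⟩
    have hf0 : f 0 = 0 := by
      by_contra hne
      exact absurd (Int.le_of_dvd (abs_pos.2 hne) ((dvd_abs _ _).2 hd))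
        (not_le.2 (hf 0 (Nat.succ_pos D)))
    have h1 : ∑ i ∈ Finset.range D, f (i + 1) * B ^ i = 0 := by
      rw [hf0] at h0
      have : B * ∑ i ∈ Finset.range D, f (i + 1) * B ^ i = 0 := by linarith
      exact (mul_eq_zero.1 this).resolve_left hB.ne'
    rcases i with _ | j
    · exact hf0
    · exact dig_zero B D (fun i => f (i + 1)) (fun j hj => hf (j + 1) (by omega)) h1 j (by omega)

/-- the base-`B` expansion -/
theorem dig_sum (B : ℕ) : ∀ (D p : ℕ), p < B ^ D →
    p = ∑ i ∈ Finset.range D, (p / B ^ i % B) * B ^ i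
  | 0, p, h => by simpa using h
  | D + 1, p, h => by
    rw [Finset.sum_range_succ']
    have h1 : p / B < B ^ D := by
      rcases Nat.eq_zero_or_pos B with hB | hB
      · subst hB; simp at h
      · rw [Nat.div_lt_iff_lt_mul hB]; rwa [pow_succ] at h
    have h2 := dig_sum B D (p / B) h1
    have e1 : ∑ i ∈ Finset.range D, (p / B ^ (i + 1) % B) * B ^ (i + 1)
        = B * ∑ i ∈ Finset.range D, (p / B / B ^ i % B) * B ^ i := by
      rw [Finset.mul_sum]
      refine Finset.sum_congr rfl fun j _ => ?_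
      rw [pow_succ' B j, Nat.div_div_eq_div_mul]; ring
    rw [e1, ← h2]
    simp only [pow_zero, Nat.div_one, mul_one]
    exact (Nat.div_add_mod p B).symm

theorem pow_mod_sub_one (B : ℕ) (hB : 1 ≤ B) (i : ℕ) : B ^ i ≡ 1 [MOD (B - 1)] := by
  have h : B ≡ 1 [MOD (B - 1)] := by
    have : (1 : ℕ) ≡ B [MOD (B - 1)] := (Nat.modEq_iff_dvd' hB).2 (dvd_refl _)
    exact this.symm
  simpa using h.pow i

/-- the digit sum is congruent to the number modulo `B - 1` -/
theorem dig_mod (B D p : ℕ) (hB : 1 ≤ B) (hp : p < B ^ D) :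
    (∑ i ∈ Finset.range D, (p / B ^ i % B)) ≡ p [MOD (B - 1)] := by
  conv_rhs => rw [dig_sum B D p hp]
  refine Nat.ModEq.sum (fun i _ => ?_) 
  have := (pow_mod_sub_one B hB i).mul_left (p / B ^ i % B)
  simpa using this.symm

/-- if the digits are below `B / 2^h` and there are at most `2^h` of them then the digit sum is
the remainder modulo `B - 1` -/
theorem dig_eq_mod (b h D p : ℕ) (hh : 1 ≤ h) (hhb : h ≤ b) (hD : D ≤ 2 ^ h)
    (hp : p < (2 ^ b) ^ D)
    (hd : ∀ i < D, p / (2 ^ b) ^ i % 2 ^ b < 2 ^ (b - h)) :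
    ∑ i ∈ Finset.range D, (p / (2 ^ b) ^ i % 2 ^ b) = p % (2 ^ b - 1) := by
  have h1 := dig_mod (2 ^ b) D p Nat.one_le_two_pow hp
  have h2 : ∑ i ∈ Finset.range D, (p / (2 ^ b) ^ i % 2 ^ b) < 2 ^ b - 1 := by
    have h3 : ∑ i ∈ Finset.range D, (p / (2 ^ b) ^ i % 2 ^ b) ≤ ∑ i ∈ Finset.range D,
        (2 ^ (b - h) - 1) := Finset.sum_le_sum fun i hi => by
      have := hd i (Finset.mem_range.1 hi); omega
    rw [Finset.sum_const, Finset.card_range, smul_eq_mul] at h3
    have h4 : D * (2 ^ (b - h) - 1) ≤ 2 ^ h * (2 ^ (b - h) - 1) := Nat.mul_le_mul_right _ hD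
    have h5 : 2 ^ h * (2 ^ (b - h) - 1) = 2 ^ b - 2 ^ h := by
      rw [Nat.mul_sub, mul_one, ← pow_add]; congr 2; omega
    have h6 : 2 ≤ 2 ^ h := by
      calc 2 = 2 ^ 1 := rfl
        _ ≤ 2 ^ h := Nat.pow_le_pow_right (by norm_num) hh
    have h7 : 2 ^ h ≤ 2 ^ b := Nat.pow_le_pow_right (by norm_num) hhb
    omega
  have h8 := h1
  unfold Nat.ModEq at h8
  rwa [Nat.mod_eq_of_lt h2] at h8

/-- the digits of a number given by its digits -/
theorem dig_of_sum (B : ℕ) : ∀ (D : ℕ) (f : ℕ → ℕ), (∀ i < D, f i < B) → ∀ i < D,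
    (∑ j ∈ Finset.range D, f j * B ^ j) / B ^ i % B = f i
  | 0, _, _, i, hi => absurd hi (Nat.not_lt_zero i)
  | D + 1, f, hf, i, hi => by
    have hB : 0 < B := lt_of_le_of_lt (Nat.zero_le _) (hf 0 (Nat.succ_pos D))
    rw [Finset.sum_range_succ']
    have e1 : ∑ i ∈ Finset.range D, f (i + 1) * B ^ (i + 1)
        = B * ∑ i ∈ Finset.range D, f (i + 1) * B ^ i := by
      rw [Finset.mul_sum]
      exact Finset.sum_congr rfl fun j _ => by ring
    rw [e1]
    simp only [pow_zero, mul_one]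
    rcases i with _ | j
    · simp only [pow_zero, Nat.div_one]
      rw [Nat.mul_add_mod]
      exact Nat.mod_eq_of_lt (hf 0 hi)
    · rw [pow_succ', ← Nat.div_div_eq_div_mul, Nat.mul_add_div hB,
        Nat.div_eq_of_lt (hf 0 (Nat.succ_pos D)), add_zero]
      exact dig_of_sum B D (fun i => f (i + 1)) (fun j hj => hf (j + 1) (by omega)) j (by omega)

/-- `R = 1 + B + ... + B^(D-1)` from its defining equation -/
theorem ones_eq (b D R : ℕ) (hb : 1 ≤ b) (hR : R * (2 ^ b - 1) + 1 = 2 ^ (b * D)) :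
    R = ∑ i ∈ Finset.range D, 1 * (2 ^ b) ^ i := by
  have h2 : 2 ≤ 2 ^ b := by
    calc 2 = 2 ^ 1 := rfl
      _ ≤ 2 ^ b := Nat.pow_le_pow_right (by norm_num) hb
  have h1 := Nat.geomSum_eq h2 D
  simp only [one_mul]
  rw [h1, ← pow_mul, ← hR]
  simp only [Nat.add_sub_cancel]
  rw [Nat.mul_div_cancel]
  omega

/-- the mask check: the top `h` bits of every digit of `p` are zero -/
theorem dig_of_mask (b h D p R : ℕ) (hb : 1 ≤ b) (hhb : h ≤ b)
    (hR : R * (2 ^ b - 1) + 1 = 2 ^ (b * D))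
    (hp : p &&& (((2 ^ h - 1) * 2 ^ (b - h)) * R) = 0) :
    ∀ i < D, p / (2 ^ b) ^ i % 2 ^ b < 2 ^ (b - h) := by
  intro i hi
  by_contra hcon
  push Not at hcon
  set d := p / (2 ^ b) ^ i % 2 ^ b with hd
  have hdlt : d < 2 ^ b := Nat.mod_lt _ (Nat.two_pow_pos b)
  -- a bit of d at a position j ≥ b - h
  have hex : ∃ j, b - h ≤ j ∧ d.testBit j = true := by
    by_contra hno
    push Not at hno
    have : d < 2 ^ (b - h) := by
      apply Nat.lt_pow_two_of_testBit
      intro j hj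
      have := hno j hj
      simpa using this
    omega
  obtain ⟨j, hj, hbit⟩ := hex
  have hjb : j < b := by
    by_contra hjb
    push Not at hjb
    have := Nat.testBit_lt_two_pow (lt_of_lt_of_le hdlt (Nat.pow_le_pow_right (by norm_num) hjb))
    rw [this] at hbit
    exact absurd hbit (by simp)
  have hH : (((2 ^ h - 1) * 2 ^ (b - h)) * R) / (2 ^ b) ^ i % 2 ^ b = (2 ^ h - 1) * 2 ^ (b - h) := by
    rw [ones_eq b D R hb hR, Finset.mul_sum]
    simp only [one_mul]
    refine dig_of_sum (2 ^ b) D (fun _ => (2 ^ h - 1) * 2 ^ (b - h)) (fun _ _ => ?_) i hi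
    have : 2 ^ h * 2 ^ (b - h) = 2 ^ b := by rw [← pow_add]; congr 1; omega
    calc (2 ^ h - 1) * 2 ^ (b - h) < 2 ^ h * 2 ^ (b - h) :=
          Nat.mul_lt_mul_of_pos_right (Nat.sub_lt (Nat.two_pow_pos h) one_pos) (Nat.two_pow_pos _)
      _ = 2 ^ b := this
  have hHbit : ((((2 ^ h - 1) * 2 ^ (b - h)) * R) / (2 ^ b) ^ i % 2 ^ b).testBit j = true := by
    rw [hH, mul_comm, Nat.testBit_two_pow_mul]
    simp only [ge_iff_le, Bool.and_eq_true, decide_eq_true_eq]
    refine ⟨hj, ?_⟩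
    rw [Nat.testBit_two_pow_sub_one]
    simp only [decide_eq_true_eq]
    omega
  rw [hd] at hbit
  rw [← pow_mul] at hbit hHbit
  rw [Nat.testBit_mod_two_pow, Nat.testBit_div_two_pow] at hbit hHbit
  simp only [Bool.and_eq_true] at hbit hHbit
  have := congrArg (fun n => Nat.testBit n (j + b * i)) hp
  simp only [Nat.testBit_and, Nat.zero_testBit] at this
  rw [hbit.2, hHbit.2] at this
  exact absurd this (by simp)

end Pool.Agent.H.MP_ce2c94_gt.h46
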