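import Mathlib
import Pool.Agent.H.MP_ce2c94_gt.h46.Dig

/-!
# Packed Laurent polynomials in two variables with integer coefficients

`T = ℤ[x^±1, y^±1]`, `nrm` = sum of the absolute values of the coefficients, `InBox c I J` =
the exponents are in `[-I, I] × [-J, J]`; the packed value of `c` is
`z = c(2^b, 2^(bW)) * 2^(b (I + W J))`.  `nrm_le_of_split`: the Wiener norm by one `mod`.
-/

namespace Pool.Agent.H.MP_ce2c94_gt.h46

open AddMonoidAlgebra

noncomputable section

/-- Laurent polynomials in two variables with integer coefficients -/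
abbrev T : Type := AddMonoidAlgebra ℤ (ℤ × ℤ)

/-- the `l^1` norm of the coefficients -/
def nrm (c : T) : ℕ := ∑ k ∈ c.coeff.support, (c.coeff k).natAbs

theorem nrm_eq (c : T) {s : Finset (ℤ × ℤ)} (hs : c.coeff.support ⊆ s) :
    nrm c = ∑ k ∈ s, (c.coeff k).natAbs := by
  refine Finset.sum_subset hs fun k _ hk => ?_
  rw [Finsupp.notMem_support_iff.1 hk]; rfl

@[simp] theorem nrm_zero : nrm 0 = 0 := by simp [nrm]

theorem nrm_add (c d : T) : nrm (c + d) ≤ nrm c + nrm d := by
  classical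
  rw [nrm_eq c (s := c.coeff.support ∪ d.coeff.support) Finset.subset_union_left,
    nrm_eq d (s := c.coeff.support ∪ d.coeff.support) Finset.subset_union_right,
    nrm_eq (c + d) (s := c.coeff.support ∪ d.coeff.support)
      (by rw [coeff_add]; exact Finsupp.support_add), ← Finset.sum_add_distrib]
  refine Finset.sum_le_sum fun k _ => ?_
  rw [coeff_add, Finsupp.add_apply]
  exact Int.natAbs_add_le _ _

theorem nrm_sum {ι : Type*} (s : Finset ι) (f : ι → T) :
    nrm (∑ i ∈ s, f i) ≤ ∑ i ∈ s, nrm (f i) := by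
  classical
  induction s using Finset.induction_on with
  | empty => simp
  | insert a s ha ih =>
    rw [Finset.sum_insert ha, Finset.sum_insert ha]
    exact (nrm_add _ _).trans (Nat.add_le_add_left ih _)

theorem nrm_smul (n : ℤ) (c : T) : nrm (n • c) ≤ n.natAbs * nrm c := by
  classical
  rw [nrm_eq (n • c) (s := c.coeff.support) (by rw [coeff_smul]; exact Finsupp.support_smul),
    nrm, Finset.mul_sum]
  refine Finset.sum_le_sum fun k _ => ?_
  rw [coeff_smul, Finsupp.smul_apply, smul_eq_mul, Int.natAbs_mul]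

theorem nrm_neg (c : T) : nrm (-c) = nrm c := by
  classical
  have h1 : nrm (-c) ≤ nrm c := by simpa using nrm_smul (-1) c
  have h2 : nrm (- -c) ≤ nrm (-c) := by simpa using nrm_smul (-1) (-c)
  rw [neg_neg] at h2
  exact le_antisymm h1 h2

theorem nrm_sub (c d : T) : nrm (c - d) ≤ nrm c + nrm d := by
  rw [sub_eq_add_neg]
  exact (nrm_add _ _).trans (by rw [nrm_neg])

theorem nrm_single (k : ℤ × ℤ) (a : ℤ) : nrm (single k a) ≤ a.natAbs := by
  classical
  rw [nrm_eq (single k a) (s := {k}) (by rw [coeff_single]; exact Finsupp.support_single_subset)]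
  simp

/-- every element is the sum of its monomials -/
theorem eq_sum_single (c : T) : c = ∑ k ∈ c.coeff.support, single k (c.coeff k) := by
  conv_lhs => rw [← sum_coeff_single c]
  rfl

theorem nrm_mul (c d : T) : nrm (c * d) ≤ nrm c * nrm d := by
  classical
  have h1 : ∀ (k : ℤ × ℤ) (a : ℤ), nrm (single k a * d) ≤ a.natAbs * nrm d := by
    intro k a
    conv_lhs => rw [eq_sum_single d, Finset.mul_sum]
    refine (nrm_sum _ _).trans ?_
    rw [nrm, Finset.mul_sum]
    refine Finset.sum_le_sum fun l _ => ?_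
    rw [single_mul_single]
    exact (nrm_single _ _).trans (by rw [Int.natAbs_mul])
  conv_lhs => rw [eq_sum_single c, Finset.sum_mul]
  refine (nrm_sum _ _).trans ?_
  conv_rhs => rw [nrm]
  rw [Finset.sum_mul]
  exact Finset.sum_le_sum fun k _ => h1 k _

/-- the exponents are in the box -/
def InBox (c : T) (I J : ℕ) : Prop := ∀ k : ℤ × ℤ, c.coeff k ≠ 0 → k.1.natAbs ≤ I ∧ k.2.natAbs ≤ J

theorem InBox.zero (I J : ℕ) : InBox 0 I J := fun k h => absurd (by simp) h

theorem InBox.single {k : ℤ × ℤ} {a : ℤ} {I J : ℕ} (h1 : k.1.natAbs ≤ I) (h2 : k.2.natAbs ≤ J) :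
    InBox (single k a) I J := by
  intro l hl
  rw [coeff_single, Finsupp.single_apply] at hl
  split_ifs at hl with h
  · rw [← h]; exact ⟨h1, h2⟩
  · exact absurd rfl hl

theorem InBox.add {c d : T} {I J : ℕ} (hc : InBox c I J) (hd : InBox d I J) :
    InBox (c + d) I J := by
  intro k hk
  by_cases h : c.coeff k = 0
  · refine hd k fun h' => hk ?_
    rw [coeff_add, Finsupp.add_apply, h, h', add_zero]
  · exact hc k h

theorem InBox.sum {ι : Type*} {s : Finset ι} {f : ι → T} {I J : ℕ}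
    (h : ∀ i ∈ s, InBox (f i) I J) : InBox (∑ i ∈ s, f i) I J := by
  classical
  induction s using Finset.induction_on with
  | empty => simpa using InBox.zero I J
  | insert a s ha ih =>
    rw [Finset.sum_insert ha]
    exact (h a (Finset.mem_insert_self _ _)).add
      (ih fun i hi => h i (Finset.mem_insert_of_mem hi))

theorem InBox.smul {c : T} {I J : ℕ} (hc : InBox c I J) (n : ℤ) : InBox (n • c) I J := by
  intro k hk
  refine hc k fun h => hk ?_
  rw [coeff_smul, Finsupp.smul_apply, h, smul_zero]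

theorem InBox.neg {c : T} {I J : ℕ} (hc : InBox c I J) : InBox (-c) I J := by
  have := hc.smul (-1); simpa using this

theorem InBox.sub {c d : T} {I J : ℕ} (hc : InBox c I J) (hd : InBox d I J) :
    InBox (c - d) I J := by
  rw [sub_eq_add_neg]; exact hc.add hd.neg

theorem InBox.mono {c : T} {I J I' J' : ℕ} (hc : InBox c I J) (hI : I ≤ I') (hJ : J ≤ J') :
    InBox c I' J' := fun k hk => ⟨(hc k hk).1.trans hI, (hc k hk).2.trans hJ⟩

theorem InBox.mul {c d : T} {I J I' J' : ℕ} (hc : InBox c I J) (hd : InBox d I' J') :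
    InBox (c * d) (I + I') (J + J') := by
  classical
  rw [eq_sum_single c, eq_sum_single d, Finset.sum_mul]
  refine InBox.sum fun k hk => ?_
  rw [Finset.mul_sum]
  refine InBox.sum fun l hl => ?_
  rw [single_mul_single]
  have h1 := hc k (Finsupp.mem_support_iff.1 hk)
  have h2 := hd l (Finsupp.mem_support_iff.1 hl)
  refine InBox.single ?_ ?_
  · exact (Int.natAbs_add_le _ _).trans (Nat.add_le_add h1.1 h2.1)
  · exact (Int.natAbs_add_le _ _).trans (Nat.add_le_add h1.2 h2.2)

/-- the exponential character `(i, j) ↦ 2^(b (i + W j))` -/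
def evHom (b W : ℕ) : Multiplicative (ℤ × ℤ) →* ℚ where
  toFun k := (2 : ℚ) ^ ((b : ℤ) * ((Multiplicative.toAdd k).1 + W * (Multiplicative.toAdd k).2))
  map_one' := by simp
  map_mul' k l := by
    rw [← zpow_add₀ (by norm_num : (2 : ℚ) ≠ 0)]
    congr 1
    simp only [toAdd_mul, Prod.fst_add, Prod.snd_add]
    ring

/-- evaluation at `x = 2^b`, `y = 2^(bW)` -/
def ev (b W : ℕ) : T →+* ℚ := (lift ℤ ℚ (ℤ × ℤ) (evHom b W)).toRingHom

theorem ev_single (b W : ℕ) (k : ℤ × ℤ) (a : ℤ) :
    ev b W (single k a) = a * (2 : ℚ) ^ ((b : ℤ) * (k.1 + W * k.2)) := by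
  have : ev b W (single k a) = a • evHom b W (Multiplicative.ofAdd k) :=
    lift_single (R := ℤ) (evHom b W) k a
  rw [this, zsmul_eq_mul]
  rfl

theorem ev_eq_sum (b W : ℕ) (c : T) :
    ev b W c = ∑ k ∈ c.coeff.support, (c.coeff k : ℚ) * (2 : ℚ) ^ ((b : ℤ) * (k.1 + W * k.2)) := by
  conv_lhs => rw [eq_sum_single c, map_sum]
  exact Finset.sum_congr rfl fun k _ => ev_single b W k _

/-! ### the one dimensional index -/

/-- position of the digit of the exponent `k` -/
def idx (W I J : ℕ) (k : ℤ × ℤ) : ℕ := (k.1 + I).toNat + W * (k.2 + J).toNat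

/-- the coefficient at position `n` -/
def dg (c : T) (W I J n : ℕ) : ℤ := c.coeff (((n % W : ℕ) : ℤ) - I, ((n / W : ℕ) : ℤ) - J)

theorem dg_idx {c : T} {W I J : ℕ} (hW : 2 * I + 1 ≤ W) {k : ℤ × ℤ} (h1 : k.1.natAbs ≤ I)
    (h2 : k.2.natAbs ≤ J) : dg c W I J (idx W I J k) = c.coeff k := by
  have e1 : ((k.1 + I).toNat : ℤ) = k.1 + I := Int.toNat_of_nonneg (by omega)
  have e2 : ((k.2 + J).toNat : ℤ) = k.2 + J := Int.toNat_of_nonneg (by omega)
  have hlt : (k.1 + I).toNat < W := by omega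
  have e3 : idx W I J k % W = (k.1 + I).toNat := by
    rw [idx, Nat.add_mul_mod_self_left, Nat.mod_eq_of_lt hlt]
  have e4 : idx W I J k / W = (k.2 + J).toNat := by
    rw [idx, Nat.add_mul_div_left _ _ (by omega), Nat.div_eq_of_lt hlt, zero_add]
  rw [dg, e3, e4, e1, e2]
  congr 1
  ext <;> simp

theorem sum_dg {c : T} {W I J D : ℕ} {M : Type*} [AddCommMonoid M] (hbox : InBox c I J)
    (hW : 2 * I + 1 ≤ W) (hD : W * (2 * J + 1) ≤ D) (g : ℕ → ℤ → M) (hg : ∀ n, g n 0 = 0) :
    ∑ n ∈ Finset.range D, g n (dg c W I J n)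
      = ∑ k ∈ c.coeff.support, g (idx W I J k) (c.coeff k) := by
  classical
  have hmem : ∀ k ∈ c.coeff.support, k.1.natAbs ≤ I ∧ k.2.natAbs ≤ J := fun k hk =>
    hbox k (Finsupp.mem_support_iff.1 hk)
  have hinj : Set.InjOn (idx W I J) c.coeff.support := by
    intro k hk l hl hkl
    have hk' := hmem k hk
    have hl' := hmem l hl
    have hk1 : (k.1 + I).toNat < W := by omega
    have hl1 : (l.1 + I).toNat < W := by omega
    have e1 : (k.1 + I).toNat = (l.1 + I).toNat := by
      have := congrArg (· % W) hkl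
      simp only [idx, Nat.add_mul_mod_self_left] at this
      rwa [Nat.mod_eq_of_lt hk1, Nat.mod_eq_of_lt hl1] at this
    have e2 : (k.2 + J).toNat = (l.2 + J).toNat := by
      have hWp : 0 < W := by omega
      have := hkl
      simp only [idx, e1] at this
      exact Nat.eq_of_mul_eq_mul_left hWp (by omega)
    ext
    · omega
    · omega
  have hrhs : ∑ k ∈ c.coeff.support, g (idx W I J k) (c.coeff k)
      = ∑ n ∈ c.coeff.support.image (idx W I J), g n (dg c W I J n) := by
    rw [Finset.sum_image hinj]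
    refine Finset.sum_congr rfl fun k hk => ?_
    rw [dg_idx hW (hmem k hk).1 (hmem k hk).2]
  rw [hrhs]
  symm
  refine Finset.sum_subset ?_ ?_
  · intro n hn
    obtain ⟨k, hk, rfl⟩ := Finset.mem_image.1 hn
    have hk' := hmem k hk
    rw [Finset.mem_range]
    refine lt_of_lt_of_le ?_ hD
    have h1 : (k.1 + I).toNat < W := by omega
    have h2 : (k.2 + J).toNat ≤ 2 * J := by omega
    calc idx W I J k < W + W * (k.2 + J).toNat := Nat.add_lt_add_right h1 _
      _ ≤ W + W * (2 * J) := Nat.add_le_add_left (Nat.mul_le_mul_left _ h2) _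
      _ = W * (2 * J + 1) := by ring
  · intro n _ hn
    by_cases h0 : dg c W I J n = 0
    · rw [h0, hg]
    · exfalso
      apply hn
      rw [dg] at h0
      refine Finset.mem_image.2 ⟨_, Finsupp.mem_support_iff.2 h0, ?_⟩
      simp only [idx, sub_add_cancel, Int.toNat_natCast]
      rw [add_comm]
      exact Nat.div_add_mod n W

theorem nrm_eq_dg {c : T} {W I J D : ℕ} (hbox : InBox c I J)
    (hW : 2 * I + 1 ≤ W) (hD : W * (2 * J + 1) ≤ D) :
    nrm c = ∑ n ∈ Finset.range D, (dg c W I J n).natAbs :=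
  (sum_dg hbox hW hD (fun _ a => a.natAbs) (fun _ => rfl)).symm

theorem ev_eq_dg {c : T} {b W I J D : ℕ} (hbox : InBox c I J)
    (hW : 2 * I + 1 ≤ W) (hD : W * (2 * J + 1) ≤ D) :
    ev b W c * 2 ^ (b * (I + W * J))
      = ((∑ n ∈ Finset.range D, dg c W I J n * (2 ^ b) ^ n : ℤ) : ℚ) := by
  have h1 := sum_dg hbox hW hD (fun n a => (a : ℚ) * (2 ^ b) ^ n) (fun n => by simp)
  push_cast
  rw [h1, ev_eq_sum, Finset.sum_mul]
  refine Finset.sum_congr rfl fun k hk => ?_
  have hk' := hbox k (Finsupp.mem_support_iff.1 hk)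
  rw [mul_assoc]
  congr 1
  rw [← pow_mul, ← zpow_natCast, ← zpow_natCast, ← zpow_add₀ (by norm_num : (2 : ℚ) ≠ 0)]
  congr 1
  push_cast
  have e1 : ((k.1 + I).toNat : ℤ) = k.1 + I := Int.toNat_of_nonneg (by omega)
  have e2 : ((k.2 + J).toNat : ℤ) = k.2 + J := Int.toNat_of_nonneg (by omega)
  rw [idx]
  push_cast
  rw [e1, e2]
  ring

/-- THE WIENER NORM BY ONE MOD: if the packed value is the difference of two naturals with small
digits then the norm is at most the sum of their remainders modulo `2^b - 1` -/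
theorem nrm_le_of_split {c : T} {b h W I J D R p n : ℕ} {z : ℤ} (hbox : InBox c I J)
    (hW : 2 * I + 1 ≤ W) (hDD : W * (2 * J + 1) ≤ D) (hD : D ≤ 2 ^ h) (hh : 1 ≤ h) (hhb : h ≤ b)
    (hs : 2 * nrm c < 2 ^ b) (hz : (z : ℚ) = ev b W c * 2 ^ (b * (I + W * J)))
    (hR : R * (2 ^ b - 1) + 1 = 2 ^ (b * D)) (hpn : z = p - n)
    (hp : p < 2 ^ (b * D)) (hn : n < 2 ^ (b * D))
    (hpm : p &&& (((2 ^ h - 1) * 2 ^ (b - h)) * R) = 0)
    (hnm : n &&& (((2 ^ h - 1) * 2 ^ (b - h)) * R) = 0) :
    nrm c ≤ p % (2 ^ b - 1) + n % (2 ^ b - 1) := by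
  have hb : 1 ≤ b := hh.trans hhb
  rw [pow_mul] at hp hn
  have dp := dig_of_mask b h D p R hb hhb hR hpm
  have dn := dig_of_mask b h D n R hb hhb hR hnm
  have sp := dig_eq_mod b h D p hh hhb hD hp dp
  have sn := dig_eq_mod b h D n hh hhb hD hn dn
  set P : ℕ → ℕ := fun i => p / (2 ^ b) ^ i % 2 ^ b with hP
  set N : ℕ → ℕ := fun i => n / (2 ^ b) ^ i % 2 ^ b with hN
  have hz' : z = ∑ i ∈ Finset.range D, dg c W I J i * (2 ^ b) ^ i := by
    rw [ev_eq_dg hbox hW hDD] at hz
    exact_mod_cast hz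
  have hpz : (p : ℤ) = ∑ i ∈ Finset.range D, (P i : ℤ) * (2 ^ b) ^ i := by
    conv_lhs => rw [dig_sum (2 ^ b) D p hp]
    push_cast
    exact Finset.sum_congr rfl fun i _ => by simp [hP]
  have hnz : (n : ℤ) = ∑ i ∈ Finset.range D, (N i : ℤ) * (2 ^ b) ^ i := by
    conv_lhs => rw [dig_sum (2 ^ b) D n hn]
    push_cast
    exact Finset.sum_congr rfl fun i _ => by simp [hN]
  have hc : ∀ i < D, (dg c W I J i).natAbs ≤ nrm c := by
    intro i hi
    rw [nrm_eq_dg hbox hW hDD]
    exact Finset.single_le_sum (f := fun n => (dg c W I J n).natAbs) (fun _ _ => Nat.zero_le _)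
      (Finset.mem_range.2 hi)
  have h2b : 2 ^ (b - h) * 2 ≤ 2 ^ b := by
    rw [← pow_succ]
    exact Nat.pow_le_pow_right (by norm_num) (by omega)
  have key := dig_zero (2 ^ b) D (fun i => dg c W I J i - P i + N i) (fun i hi => by
    have h1 := hc i hi
    have h2 := dp i hi
    have h3 := dn i hi
    have h4 : (P i : ℕ) < 2 ^ (b - h) := h2
    have h5 : (N i : ℕ) < 2 ^ (b - h) := h3
    have e : ((2 : ℤ) ^ b) = ((2 ^ b : ℕ) : ℤ) := by push_cast; ring
    rw [e]
    rw [abs_lt]
    constructor <;> omega) (by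
    have : ∑ i ∈ Finset.range D, (dg c W I J i - P i + N i) * ((2 : ℤ) ^ b) ^ i
        = z - p + n := by
      rw [hz', hpz, hnz, ← Finset.sum_sub_distrib, ← Finset.sum_add_distrib]
      exact Finset.sum_congr rfl fun i _ => by ring
    rw [this, hpn]; ring)
  rw [nrm_eq_dg hbox hW hDD, ← sp, ← sn, ← Finset.sum_add_distrib]
  refine Finset.sum_le_sum fun i hi => ?_
  have h1 := key i (Finset.mem_range.1 hi)
  simp only [hP, hN] at h1
  omega

end

end Pool.Agent.H.MP_ce2c94_gt.h46
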