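import Mathlib
import Pool.Agent.H.MP_ce2c94_gt.h46.Pack

/-!
# Ball arithmetic with packed Laurent polynomials

`Cell` : packed centre `z`, box `I, J`, norm bound `s`, radius `e`, precision `p`
(all at scale `2^p`).  `Enc` : the cell encloses an element `x` of a commutative Banach algebra.
All kernel side functions use only accelerated `Nat` operations.
-/

namespace Pool.Agent.H.MP_ce2c94_gt.h46

open AddMonoidAlgebra

/-! ### forcing evaluation in the kernel -/

/-- evaluates `n` before calling the continuation (kernel: the major premise is reduced) -/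
def forceN {α : Type*} (n : ℕ) (k : ℕ → α) : α :=
  @Nat.rec (fun _ => α) (k 0) (fun m _ => k (Nat.succ m)) n

theorem forceN_eq {α : Type*} (n : ℕ) (k : ℕ → α) : forceN n k = k n := by
  cases n <;> rfl

/-- evaluates an integer before calling the continuation -/
def forceZ {α : Type*} (z : ℤ) (k : ℤ → α) : α :=
  match z with
  | .ofNat n => forceN n fun n => k (.ofNat n)
  | .negSucc n => forceN n fun n => k (.negSucc n)

theorem forceZ_eq {α : Type*} (z : ℤ) (k : ℤ → α) : forceZ z k = k z := by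
  cases z <;> simp [forceZ, forceN_eq]

/-- parameters: digit width `b`, row length `W`, `h` guard bits, `D` digits, maximal box `I0, J0`,
`k` (the algebra norm is at most `(1 + 2^-k)` times the `l^1` norm in the box), and the derived
numbers `R = 1 + B + ... + B^(D-1)`, mask `M`, offset `O`, `TD = B^D`, `B1 = B - 1` -/
structure Par where
  b : ℕ
  W : ℕ
  h : ℕ
  D : ℕ
  I0 : ℕ
  J0 : ℕ
  k : ℕ
  R : ℕ
  M : ℕ
  O : ℕ
  TD : ℕ
  B1 : ℕ

/-- the parameters from the basic ones, evaluated -/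
def mkPar {α : Type*} (b W h I0 J0 k : ℕ) (f : Par → α) : α :=
  forceN (W * (2 * J0 + 1)) fun D =>
  forceN ((2 ^ (b * W)) ^ (2 * J0 + 1)) fun TD =>
  forceN (2 ^ b - 1) fun B1 =>
  forceN ((TD - 1) / B1) fun R =>
  forceN (((2 ^ h - 1) * 2 ^ (b - h)) * R) fun M =>
  forceN (2 ^ (b - 1) * R) fun O =>
  f ⟨b, W, h, D, I0, J0, k, R, M, O, TD, B1⟩

/-- validity check -/
def Par.ok (P : Par) : Bool :=
  Nat.ble 1 P.h && Nat.ble P.h P.b && Nat.ble P.D (2 ^ P.h) && Nat.ble (2 * P.I0 + 1) P.W &&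
  Nat.beq P.D (P.W * (2 * P.J0 + 1)) && Nat.beq P.TD ((2 ^ (P.b * P.W)) ^ (2 * P.J0 + 1)) &&
  Nat.beq P.B1 (2 ^ P.b - 1) && Nat.beq (P.R * P.B1 + 1) P.TD &&
  Nat.beq P.M (((2 ^ P.h - 1) * 2 ^ (P.b - P.h)) * P.R)

structure Par.Ok (P : Par) : Prop where
  h1 : 1 ≤ P.h
  hb : P.h ≤ P.b
  hD : P.D ≤ 2 ^ P.h
  hW : 2 * P.I0 + 1 ≤ P.W
  hJ : P.W * (2 * P.J0 + 1) ≤ P.D
  hTD : P.TD = 2 ^ (P.b * P.D)
  hB1 : P.B1 = 2 ^ P.b - 1
  hR : P.R * P.B1 + 1 = P.TD
  hM : P.M = ((2 ^ P.h - 1) * 2 ^ (P.b - P.h)) * P.R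

theorem Par.ok_iff (P : Par) (h : P.ok = true) : P.Ok := by
  simp only [Par.ok, Bool.and_eq_true, Nat.ble_eq, Nat.beq_eq] at h
  obtain ⟨⟨⟨⟨⟨⟨⟨⟨h1, h2⟩, h3⟩, h4⟩, h5⟩, h6⟩, h7⟩, h8⟩, h9⟩ := h
  refine ⟨h1, h2, h3, h4, h5.ge, ?_, h7, h8, h9⟩
  rw [h6, h5, ← pow_mul, mul_assoc]

/-! ### the norm -/

/-- positive part of the digits -/
def posP (P : Par) (z : ℤ) : ℕ :=
  forceN (z + (P.O : ℤ)).toNat fun q => q &&& (((q >>> (P.b - 1)) &&& P.R) * (2 ^ (P.b - 1) - 1))

/-- digit check -/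
def chk (P : Par) (x : ℕ) : Bool := Nat.ble (x + 1) P.TD && Nat.beq (x &&& P.M) 0

/-- the sum of the absolute values of the signed digits of `z` -/
def absS (P : Par) (z : ℤ) : Option ℕ :=
  forceN (posP P z) fun p =>
  match (p : ℤ) - z with
  | .ofNat n => forceN n fun n =>
      if chk P p && chk P n then some (p % P.B1 + n % P.B1) else none
  | .negSucc _ => none

/-- `z` is the packed value of `c` in the box `I, J` -/
structure Rep (P : Par) (c : T) (z : ℤ) (I J : ℕ) : Prop where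
  box : InBox c I J
  hI : I ≤ P.I0
  hJ : J ≤ P.J0
  ev : (z : ℚ) = ev P.b P.W c * 2 ^ (P.b * (I + P.W * J))

theorem absS_sound {P : Par} (hP : P.Ok) {c : T} {z : ℤ} {I J r : ℕ} (h : Rep P c z I J)
    (hs : 2 * nrm c < 2 ^ P.b) (hr : absS P z = some r) : nrm c ≤ r := by
  unfold absS at hr
  rw [forceN_eq] at hr
  split at hr
  · rename_i n hn
    rw [forceN_eq] at hr
    split at hr
    · rename_i hc
      simp only [chk, Bool.and_eq_true, Nat.ble_eq, Nat.beq_eq] at hc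
      obtain ⟨⟨c1, c2⟩, c3, c4⟩ := hc
      rw [hP.hM] at c2 c4
      rw [hP.hTD] at c1 c3
      injection hr with hr
      rw [← hr, hP.hB1]
      have hR := hP.hR
      rw [hP.hTD, hP.hB1] at hR
      refine nrm_le_of_split h.box (by have := hP.hW; have := h.hI; omega)
        (le_trans (Nat.mul_le_mul_left _ (by have := h.hJ; omega)) hP.hJ) hP.hD hP.h1 hP.hb hs h.ev
        hR ?_ (by omega) (by omega) c2 c4
      have : ((posP P z : ℕ) : ℤ) - z = (n : ℤ) := hn
      omega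
    · exact absurd hr (by simp)
  · exact absurd hr (by simp)

theorem Rep.zero (P : Par) {I J : ℕ} (hI : I ≤ P.I0) (hJ : J ≤ P.J0) : Rep P 0 0 I J :=
  ⟨InBox.zero I J, hI, hJ, by simp⟩

theorem Rep.add {P : Par} {c d : T} {z w : ℤ} {I J : ℕ} (h : Rep P c z I J) (h' : Rep P d w I J) :
    Rep P (c + d) (z + w) I J :=
  ⟨h.box.add h'.box, h.hI, h.hJ, by push_cast; rw [h.ev, h'.ev, map_add]; ring⟩

theorem Rep.neg {P : Par} {c : T} {z : ℤ} {I J : ℕ} (h : Rep P c z I J) : Rep P (-c) (-z) I J :=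
  ⟨h.box.neg, h.hI, h.hJ, by push_cast; rw [h.ev, map_neg]; ring⟩

theorem Rep.sub {P : Par} {c d : T} {z w : ℤ} {I J : ℕ} (h : Rep P c z I J) (h' : Rep P d w I J) :
    Rep P (c - d) (z - w) I J :=
  ⟨h.box.sub h'.box, h.hI, h.hJ, by push_cast; rw [h.ev, h'.ev, map_sub]; ring⟩

theorem Rep.smul {P : Par} {c : T} {z : ℤ} {I J : ℕ} (h : Rep P c z I J) (n : ℤ) :
    Rep P (n • c) (n * z) I J :=
  ⟨h.box.smul n, h.hI, h.hJ, by push_cast; rw [h.ev, map_zsmul, zsmul_eq_mul]; ring⟩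

theorem Rep.mul {P : Par} {c d : T} {z w : ℤ} {I J I' J' : ℕ} (h : Rep P c z I J)
    (h' : Rep P d w I' J') (hI : I + I' ≤ P.I0) (hJ : J + J' ≤ P.J0) :
    Rep P (c * d) (z * w) (I + I') (J + J') :=
  ⟨h.box.mul h'.box, hI, hJ, by
    push_cast; rw [h.ev, h'.ev, map_mul, Nat.mul_add, Nat.mul_add, Nat.mul_add]
    rw [show P.b * (I + I') + P.b * (P.W * (J + J'))
      = (P.b * I + P.b * (P.W * J)) + (P.b * I' + P.b * (P.W * J')) from by ring, pow_add (2 : ℚ)]
    ring⟩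

/-- enlarging the box -/
theorem Rep.enl {P : Par} {c : T} {z : ℤ} {I J I' J' : ℕ} (h : Rep P c z I J)
    (hI : I ≤ I') (hJ : J ≤ J') (hI' : I' ≤ P.I0) (hJ' : J' ≤ P.J0) :
    Rep P c (z * 2 ^ (P.b * ((I' - I) + P.W * (J' - J)))) I' J' :=
  ⟨h.box.mono hI hJ, hI', hJ', by
    push_cast
    rw [h.ev, mul_assoc, ← pow_add, ← mul_add]
    obtain ⟨x, rfl⟩ := Nat.exists_eq_add_of_le hI
    obtain ⟨y, rfl⟩ := Nat.exists_eq_add_of_le hJ
    simp only [Nat.add_sub_cancel_left]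
    congr 2
    ring⟩

/-! ### polynomials given by digits -/

noncomputable section

/-- the polynomial with the digits of `p` -/
def ofDig (P : Par) (p I J : ℕ) : T :=
  ∑ n ∈ Finset.range P.D,
    single (((n % P.W : ℕ) : ℤ) - I, ((n / P.W : ℕ) : ℤ) - J) ((p / (2 ^ P.b) ^ n % 2 ^ P.b : ℕ) : ℤ)

theorem ofDig_ev {P : Par} {p I J : ℕ} (hp : p < 2 ^ (P.b * P.D)) :
    ((p : ℤ) : ℚ) = ev P.b P.W (ofDig P p I J) * 2 ^ (P.b * (I + P.W * J)) := by
  rw [pow_mul] at hp
  rw [ofDig, map_sum, Finset.sum_mul]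
  conv_lhs => rw [dig_sum (2 ^ P.b) P.D p hp]
  push_cast
  refine Finset.sum_congr rfl fun n _ => ?_
  rw [ev_single]
  push_cast
  rw [mul_assoc]
  congr 1
  rw [← pow_mul, ← zpow_natCast, ← zpow_natCast, ← zpow_add₀ (by norm_num : (2 : ℚ) ≠ 0)]
  congr 1
  push_cast
  have : ((n : ℕ) : ℤ) = (n : ℤ) % P.W + P.W * ((n : ℤ) / P.W) := (Int.emod_add_mul_ediv _ _).symm
  conv_lhs => rw [this]
  ring

theorem ofDig_nrm {P : Par} (hP : P.Ok) {p I J : ℕ} (hp : p < 2 ^ (P.b * P.D))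
    (hm : p &&& P.M = 0) : nrm (ofDig P p I J) ≤ p % P.B1 := by
  rw [pow_mul] at hp
  have hR := hP.hR
  rw [hP.hTD, hP.hB1] at hR
  rw [hP.hM] at hm
  have dp := dig_of_mask P.b P.h P.D p P.R (hP.h1.trans hP.hb) hP.hb hR hm
  have sp := dig_eq_mod P.b P.h P.D p hP.h1 hP.hb hP.hD hp dp
  rw [hP.hB1, ← sp, ofDig]
  refine (nrm_sum _ _).trans (Finset.sum_le_sum fun n _ => (nrm_single _ _).trans ?_)
  rw [Int.natAbs_natCast]

end

/-- `1 + B + ... + B^(n-1)` -/
def geo (B n : ℕ) : ℕ := (B ^ n - 1) / (B - 1)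

/-- the mask of the box `I, J` with digits `2^t - 1` -/
def boxMask (P : Par) (t I J : ℕ) : ℕ :=
  (2 ^ t - 1) * (geo (2 ^ P.b) (2 * I + 1) * geo (2 ^ (P.b * P.W)) (2 * J + 1))

theorem geo_eq {B n : ℕ} (hB : 2 ≤ B) : geo B n = ∑ i ∈ Finset.range n, B ^ i :=
  (Nat.geomSum_eq hB n).symm

theorem sum_rows {M : Type*} [AddCommMonoid M] (g : ℕ → M) (W : ℕ) : ∀ K : ℕ,
    ∑ n ∈ Finset.range (W * K), g n
      = ∑ j ∈ Finset.range K, ∑ i ∈ Finset.range W, g (i + W * j)
  | 0 => by simp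
  | K + 1 => by
    rw [Nat.mul_succ, Finset.sum_range_add, sum_rows g W K, Finset.sum_range_succ]
    congr 1
    exact Finset.sum_congr rfl fun i _ => by rw [add_comm]

theorem sum_cut {M : Type*} [AddCommMonoid M] (g : ℕ → M) {W w : ℕ} (h : w ≤ W) :
    ∑ i ∈ Finset.range w, g i = ∑ i ∈ Finset.range W, if i < w then g i else 0 := by
  rw [← Finset.sum_filter]
  refine Finset.sum_congr ?_ fun _ _ => rfl
  ext i
  simp only [Finset.mem_range, Finset.mem_filter]
  omega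

theorem boxMask_sum {P : Par} {t I J : ℕ} (hb : 1 ≤ P.b) (hW : 2 * I + 1 ≤ P.W)
    (hD : P.W * (2 * J + 1) ≤ P.D) :
    boxMask P t I J = ∑ n ∈ Finset.range P.D,
      (if n % P.W < 2 * I + 1 ∧ n / P.W < 2 * J + 1 then 2 ^ t - 1 else 0) * (2 ^ P.b) ^ n := by
  have hb2 : 2 ≤ 2 ^ P.b := by
    calc 2 = 2 ^ 1 := rfl
      _ ≤ 2 ^ P.b := Nat.pow_le_pow_right (by norm_num) hb
  have hbW : 2 ≤ 2 ^ (P.b * P.W) := by
    calc 2 = 2 ^ 1 := rfl
      _ ≤ 2 ^ (P.b * P.W) := Nat.pow_le_pow_right (by norm_num)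
        (Nat.one_le_iff_ne_zero.2 (Nat.mul_ne_zero (by omega) (by omega)))
  rw [boxMask, geo_eq hb2, geo_eq hbW]
  have e1 : ∑ n ∈ Finset.range P.D,
      (if n % P.W < 2 * I + 1 ∧ n / P.W < 2 * J + 1 then 2 ^ t - 1 else 0) * (2 ^ P.b) ^ n
      = ∑ n ∈ Finset.range (P.W * (2 * J + 1)),
      (if n % P.W < 2 * I + 1 ∧ n / P.W < 2 * J + 1 then 2 ^ t - 1 else 0) * (2 ^ P.b) ^ n := by
    symm
    refine Finset.sum_subset (Finset.range_mono hD) fun n _ hn => ?_
    rw [Finset.mem_range, not_lt] at hn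
    rw [if_neg, zero_mul]
    rintro ⟨_, h2⟩
    rw [Nat.div_lt_iff_lt_mul (by omega)] at h2
    rw [mul_comm] at h2
    omega
  rw [e1, sum_rows, Finset.mul_sum, Finset.mul_sum]
  refine Finset.sum_congr rfl fun j hj => ?_
  rw [Finset.mem_range] at hj
  rw [Finset.sum_mul, Finset.mul_sum, sum_cut _ hW]
  refine Finset.sum_congr rfl fun i hi => ?_
  rw [Finset.mem_range] at hi
  have e3 : (i + P.W * j) % P.W = i := by
    rw [Nat.add_mul_mod_self_left, Nat.mod_eq_of_lt hi]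
  have e4 : (i + P.W * j) / P.W = j := by
    rw [Nat.add_mul_div_left _ _ (by omega), Nat.div_eq_of_lt hi, zero_add]
  rw [e3, e4]
  by_cases h : i < 2 * I + 1
  · rw [if_pos h, if_pos ⟨h, hj⟩]
    rw [← pow_mul, ← pow_mul, ← pow_mul, ← pow_add]
    congr 2
    ring
  · rw [if_neg h, if_neg (fun h' => h h'.1), zero_mul]

theorem boxMask_dig {P : Par} {t I J : ℕ} (hb : 1 ≤ P.b) (ht : t ≤ P.b) (hW : 2 * I + 1 ≤ P.W)
    (hD : P.W * (2 * J + 1) ≤ P.D) {n : ℕ} (hn : n < P.D) :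
    boxMask P t I J / (2 ^ P.b) ^ n % 2 ^ P.b
      = if n % P.W < 2 * I + 1 ∧ n / P.W < 2 * J + 1 then 2 ^ t - 1 else 0 := by
  rw [boxMask_sum hb hW hD]
  refine dig_of_sum (2 ^ P.b) P.D _ (fun i _ => ?_) n hn
  have h1 : 2 ^ t ≤ 2 ^ P.b := Nat.pow_le_pow_right (by norm_num) ht
  have h2 : 0 < 2 ^ t := Nat.two_pow_pos t
  split_ifs <;> omega

theorem and_dig (b x y n : ℕ) : (x &&& y) / (2 ^ b) ^ n % 2 ^ b
    = (x / (2 ^ b) ^ n % 2 ^ b) &&& (y / (2 ^ b) ^ n % 2 ^ b) := by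
  rw [← pow_mul]
  apply Nat.eq_of_testBit_eq
  intro i
  simp only [Nat.testBit_mod_two_pow, Nat.testBit_div_two_pow, Nat.testBit_and]
  by_cases h : i < b <;> simp [h]

theorem ofDig_box {P : Par} {t I J x : ℕ} (hb : 1 ≤ P.b) (ht : t ≤ P.b) (hW : 2 * I + 1 ≤ P.W)
    (hD : P.W * (2 * J + 1) ≤ P.D) : InBox (ofDig P (x &&& boxMask P t I J) I J) I J := by
  refine InBox.sum fun n hn => ?_
  rw [Finset.mem_range] at hn
  by_cases h : n % P.W < 2 * I + 1 ∧ n / P.W < 2 * J + 1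
  · refine InBox.single ?_ ?_
    · show ((((n % P.W : ℕ) : ℤ) - I)).natAbs ≤ I
      have := h.1
      generalize n % P.W = y at this
      omega
    · show ((((n / P.W : ℕ) : ℤ) - J)).natAbs ≤ J
      have := h.2
      generalize n / P.W = y at this
      omega
  · rw [and_dig, boxMask_dig hb ht hW hD hn, if_neg h, Nat.and_zero]
    simpa using InBox.zero I J

theorem Rep.ofDig {P : Par} (hP : P.Ok) {t I J x : ℕ} (ht : t ≤ P.b) (hI : I ≤ P.I0)
    (hJ : J ≤ P.J0) (hx : x &&& boxMask P t I J < 2 ^ (P.b * P.D)) :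
    Rep P (ofDig P (x &&& boxMask P t I J) I J) ((x &&& boxMask P t I J : ℕ) : ℤ) I J :=
  ⟨ofDig_box (hP.h1.trans hP.hb) ht (by have := hP.hW; omega)
    (le_trans (Nat.mul_le_mul_left _ (by omega)) hP.hJ), hI, hJ, ofDig_ev hx⟩

/-! ### cells -/

/-- packed centre, box, norm bound, radius, precision -/
structure Cell where
  z : ℤ
  I : ℕ
  J : ℕ
  s : ℕ
  e : ℕ
  p : ℕ

/-- the algebra -/
structure Alg (P : Par) (W : Type*) [NormedCommRing W] [NormedAlgebra ℝ W] where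
  ι : T →+* W
  bd : ∀ c, InBox c P.I0 P.J0 → ‖ι c‖ ≤ (1 + 1 / 2 ^ P.k) * nrm c

/-- the cell encloses `x` -/
structure Enc {P : Par} {W : Type*} [NormedCommRing W] [NormedAlgebra ℝ W] (A : Alg P W) (x : W)
    (C : Cell) : Prop where
  ex : ∃ c : T, Rep P c C.z C.I C.J ∧ nrm c ≤ C.s ∧ ‖A.ι c‖ ≤ C.s ∧
    ‖((2 : ℝ) ^ C.p) • x - A.ι c‖ ≤ C.e

/-- rounding up of `(1 + 2^-k) r` -/
def up (P : Par) (r : ℕ) : ℕ := r + r / 2 ^ P.k + 1

theorem le_up (P : Par) (r : ℕ) : r ≤ up P r := by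
  rw [up, add_assoc]; exact Nat.le_add_right _ _

theorem up_le (P : Par) (r : ℕ) : (1 + 1 / 2 ^ P.k : ℝ) * r ≤ up P r := by
  have h1 : (r : ℝ) / 2 ^ P.k < ((r / 2 ^ P.k : ℕ) : ℝ) + 1 := by
    have h := Nat.lt_div_mul_add (a := r) (b := 2 ^ P.k) (Nat.two_pow_pos _)
    rw [div_lt_iff₀ (by positivity)]
    have : (r : ℝ) < ((r / 2 ^ P.k * 2 ^ P.k + 2 ^ P.k : ℕ) : ℝ) := by exact_mod_cast h
    push_cast at this
    linarith
  have h2 : (up P r : ℝ) = r + ((r / 2 ^ P.k : ℕ) : ℝ) + 1 := by rw [up]; push_cast; ring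
  rw [h2]
  have : (1 + 1 / 2 ^ P.k : ℝ) * r = r + (r : ℝ) / 2 ^ P.k := by ring
  rw [this]; linarith

section
variable {P : Par} {W : Type*} [NormedCommRing W] [NormedAlgebra ℝ W] {A : Alg P W}

theorem Alg.bd' (A : Alg P W) {c : T} {I J : ℕ} (hbox : InBox c I J) (hI : I ≤ P.I0)
    (hJ : J ≤ P.J0) {r : ℕ} (hr : nrm c ≤ r) : ‖A.ι c‖ ≤ up P r :=
  (A.bd c (hbox.mono hI hJ)).trans (le_trans (mul_le_mul_of_nonneg_left (by exact_mod_cast hr)
    (by positivity)) (up_le P r))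

/-! ### operations -/

/-- product -/
def mulC (P : Par) (a b : Cell) : Option Cell :=
  if Nat.ble (a.I + b.I) P.I0 && Nat.ble (a.J + b.J) P.J0 then
    some ⟨a.z * b.z, a.I + b.I, a.J + b.J, a.s * b.s, a.e * (b.s + b.e) + a.s * b.e, a.p + b.p⟩
  else none

theorem mulC_sound {a b c : Cell} {x y : W} (ha : Enc A x a) (hb : Enc A y b)
    (h : mulC P a b = some c) : Enc A (x * y) c := by
  unfold mulC at h
  split at h
  · rename_i hc
    simp only [Bool.and_eq_true, Nat.ble_eq] at hc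
    injection h with h
    subst h
    obtain ⟨u, u1, u2, u3, u4⟩ := ha.ex
    obtain ⟨v, v1, v2, v3, v4⟩ := hb.ex
    refine ⟨u * v, u1.mul v1 hc.1 hc.2, (nrm_mul u v).trans (Nat.mul_le_mul u2 v2), ?_, ?_⟩
    · rw [map_mul]
      push_cast
      exact (norm_mul_le _ _).trans (mul_le_mul u3 v3 (norm_nonneg _) (Nat.cast_nonneg _))
    · have e1 : ((2 : ℝ) ^ (a.p + b.p)) • (x * y) - A.ι (u * v)
          = (((2 : ℝ) ^ a.p) • x - A.ι u) * (((2 : ℝ) ^ b.p) • y)
            + A.ι u * (((2 : ℝ) ^ b.p) • y - A.ι v) := by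
        rw [map_mul, pow_add, sub_mul, mul_sub, smul_mul_smul_comm]
        ring
      have h1 : ‖((2 : ℝ) ^ b.p) • y‖ ≤ b.s + b.e := by
        have : ((2 : ℝ) ^ b.p) • y = A.ι v + (((2 : ℝ) ^ b.p) • y - A.ι v) := by abel
        rw [this]
        exact (norm_add_le _ _).trans (add_le_add v3 v4)
      show ‖((2 : ℝ) ^ (a.p + b.p)) • (x * y) - A.ι (u * v)‖
        ≤ ((a.e * (b.s + b.e) + a.s * b.e : ℕ) : ℝ)
      rw [e1]
      push_cast
      refine (norm_add_le _ _).trans (add_le_add ?_ ?_)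
      · exact (norm_mul_le _ _).trans (mul_le_mul u4 h1 (norm_nonneg _) (Nat.cast_nonneg _))
      · exact (norm_mul_le _ _).trans (mul_le_mul u3 v4 (norm_nonneg _) (Nat.cast_nonneg _))
  · exact absurd h (by simp)

/-- enlarging the box -/
def enlC (P : Par) (I J : ℕ) (a : Cell) : Cell :=
  ⟨a.z * 2 ^ (P.b * ((I - a.I) + P.W * (J - a.J))), I, J, a.s, a.e, a.p⟩

theorem enlC_sound {I J : ℕ} {a : Cell} {x : W} (ha : Enc A x a) (h1 : a.I ≤ I) (h2 : a.J ≤ J)
    (hI : I ≤ P.I0) (hJ : J ≤ P.J0) : Enc A x (enlC P I J a) := by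
  obtain ⟨u, u1, u2, u3, u4⟩ := ha.ex
  exact ⟨u, u1.enl h1 h2 hI hJ, u2, u3, u4⟩

/-- sum -/
def addC (P : Par) (a b : Cell) : Option Cell :=
  forceN (max a.I b.I) fun I => forceN (max a.J b.J) fun J =>
  if Nat.beq a.p b.p then
    some ⟨(enlC P I J a).z + (enlC P I J b).z, I, J, a.s + b.s, a.e + b.e, a.p⟩
  else none

theorem Enc.hI {a : Cell} {x : W} (ha : Enc A x a) : a.I ≤ P.I0 := by
  obtain ⟨u, u1, _⟩ := ha.ex
  exact u1.hI

theorem Enc.hJ {a : Cell} {x : W} (ha : Enc A x a) : a.J ≤ P.J0 := by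
  obtain ⟨u, u1, _⟩ := ha.ex
  exact u1.hJ

theorem addC_sound {a b c : Cell} {x y : W} (ha : Enc A x a) (hb : Enc A y b)
    (h : addC P a b = some c) : Enc A (x + y) c := by
  unfold addC at h
  rw [forceN_eq, forceN_eq] at h
  split at h
  · rename_i hc
    simp only [Nat.beq_eq] at hc
    injection h with h
    subst h
    have ha' := enlC_sound (P := P) ha (le_max_left a.I b.I) (le_max_left a.J b.J)
      (max_le ha.hI hb.hI) (max_le ha.hJ hb.hJ)
    have hb' := enlC_sound (P := P) hb (le_max_right a.I b.I) (le_max_right a.J b.J)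
      (max_le ha.hI hb.hI) (max_le ha.hJ hb.hJ)
    obtain ⟨u, u1, u2, u3, u4⟩ := ha'.ex
    obtain ⟨v, v1, v2, v3, v4⟩ := hb'.ex
    simp only [enlC] at u2 u3 u4 v2 v3 v4
    refine ⟨u + v, u1.add v1, (nrm_add _ _).trans (Nat.add_le_add u2 v2), ?_, ?_⟩
    · rw [map_add]
      show _ ≤ ((a.s + b.s : ℕ) : ℝ)
      push_cast
      exact (norm_add_le _ _).trans (add_le_add u3 v3)
    · rw [← hc] at v4
      show ‖((2 : ℝ) ^ a.p) • (x + y) - A.ι (u + v)‖ ≤ ((a.e + b.e : ℕ) : ℝ)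
      push_cast
      have e1 : ((2 : ℝ) ^ a.p) • (x + y) - A.ι (u + v)
          = (((2 : ℝ) ^ a.p) • x - A.ι u) + (((2 : ℝ) ^ a.p) • y - A.ι v) := by
        rw [map_add, smul_add]; abel
      rw [e1]
      exact (norm_add_le _ _).trans (add_le_add u4 v4)
  · exact absurd h (by simp)

/-- integer multiple -/
def smulC (n : ℤ) (a : Cell) : Cell :=
  ⟨n * a.z, a.I, a.J, n.natAbs * a.s, n.natAbs * a.e, a.p⟩

theorem smulC_sound {n : ℤ} {a : Cell} {x : W} (ha : Enc A x a) :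
    Enc A (n • x) (smulC n a) := by
  obtain ⟨u, u1, u2, u3, u4⟩ := ha.ex
  have hn : ‖(n : ℝ)‖ = (n.natAbs : ℝ) := by
    rw [Real.norm_eq_abs, ← Int.cast_abs]
    rw [Int.abs_eq_natAbs]; simp
  have key : ∀ w : W, ‖n • w‖ = (n.natAbs : ℝ) * ‖w‖ := by
    intro w
    rw [← hn, ← norm_smul]
    congr 1
    exact (Int.cast_smul_eq_zsmul ℝ n w).symm
  refine ⟨n • u, u1.smul n, (nrm_smul n u).trans (Nat.mul_le_mul_left _ u2), ?_, ?_⟩
  · rw [map_zsmul, key]
    show _ ≤ ((n.natAbs * a.s : ℕ) : ℝ)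
    push_cast
    exact mul_le_mul_of_nonneg_left u3 (by positivity)
  · show ‖((2 : ℝ) ^ a.p) • (n • x) - A.ι (n • u)‖ ≤ ((n.natAbs * a.e : ℕ) : ℝ)
    have e1 : ((2 : ℝ) ^ a.p) • (n • x) - A.ι (n • u) = n • (((2 : ℝ) ^ a.p) • x - A.ι u) := by
      rw [map_zsmul, smul_comm, smul_sub]
    rw [e1, key]
    push_cast
    exact mul_le_mul_of_nonneg_left u4 (by positivity)

/-- more precision digits -/
def preC (t : ℕ) (a : Cell) : Cell :=
  ⟨2 ^ t * a.z, a.I, a.J, 2 ^ t * a.s, 2 ^ t * a.e, a.p + t⟩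

theorem preC_sound {t : ℕ} {a : Cell} {x : W} (ha : Enc A x a) : Enc A x (preC t a) := by
  obtain ⟨u, u1, u2, u3, u4⟩ := ha.ex
  have key : ∀ w : W, ‖((2 : ℤ) ^ t) • w‖ = 2 ^ t * ‖w‖ := by
    intro w
    rw [← Int.cast_smul_eq_zsmul ℝ, norm_smul]
    push_cast
    rw [Real.norm_of_nonneg (by positivity)]
  refine ⟨((2 : ℤ) ^ t) • u, u1.smul _, (nrm_smul _ u).trans ?_, ?_, ?_⟩
  · rw [Int.natAbs_pow]
    exact Nat.mul_le_mul_left _ u2
  · rw [map_zsmul, key]
    show _ ≤ ((2 ^ t * a.s : ℕ) : ℝ)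
    push_cast
    exact mul_le_mul_of_nonneg_left u3 (by positivity)
  · show ‖((2 : ℝ) ^ (a.p + t)) • x - A.ι (((2 : ℤ) ^ t) • u)‖ ≤ ((2 ^ t * a.e : ℕ) : ℝ)
    have e1 : ((2 : ℝ) ^ (a.p + t)) • x - A.ι (((2 : ℤ) ^ t) • u)
        = ((2 : ℤ) ^ t) • (((2 : ℝ) ^ a.p) • x - A.ι u) := by
      rw [map_zsmul, smul_sub, ← Int.cast_smul_eq_zsmul ℝ ((2 : ℤ) ^ t) (((2 : ℝ) ^ a.p) • x),
        smul_smul]
      push_cast
      rw [pow_add, mul_comm]
    rw [e1, key]
    push_cast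
    exact mul_le_mul_of_nonneg_left u4 (by positivity)

/-- replaces the norm bound by the computed norm -/
def normC (P : Par) (a : Cell) : Option Cell :=
  if Nat.ble (2 * a.s + 1) (2 ^ P.b) then
    match absS P a.z with
    | some r => some ⟨a.z, a.I, a.J, up P r, a.e, a.p⟩
    | none => none
  else none

theorem normC_sound (hP : P.Ok) {a c : Cell} {x : W} (ha : Enc A x a)
    (h : normC P a = some c) : Enc A x c := by
  unfold normC at h
  split at h
  · rename_i hs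
    rw [Nat.ble_eq] at hs
    split at h
    · rename_i r hr
      injection h with h
      subst h
      obtain ⟨u, u1, u2, u3, u4⟩ := ha.ex
      have h1 : nrm u ≤ r := absS_sound hP u1 (by omega) hr
      exact ⟨u, u1, h1.trans (le_up P r), A.bd' u1.box u1.hI u1.hJ h1, u4⟩
    · exact absurd h (by simp)
  · exact absurd h (by simp)

/-- rounding: division by `2^t` and restriction to the box `I', J'`, with certified error -/
def roundC (P : Par) (t I' J' : ℕ) (a : Cell) : Option Cell :=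
  if Nat.ble I' a.I && Nat.ble J' a.J && Nat.ble t a.p && Nat.ble t P.b then
    forceN (posP P a.z) fun p =>
    match (p : ℤ) - a.z with
    | .ofNat n => forceN n fun n =>
      forceN (t + P.b * ((a.I - I') + P.W * (a.J - J'))) fun sh =>
      forceN (boxMask P (P.b - t) I' J') fun A =>
      forceN (2 ^ t / 2 * P.R) fun c =>
      forceN (((p + c) >>> sh) &&& A) fun p' =>
      forceN (((n + c) >>> sh) &&& A) fun n' =>
      if chk P p' && chk P n' then
        forceN (p' % P.B1 + n' % P.B1) fun s' =>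
        forceZ ((p' : ℤ) - n') fun z' =>
        if Nat.ble (2 * (a.s + 2 ^ t * s') + 1) (2 ^ P.b) then
          match absS P (a.z - z' * 2 ^ sh) with
          | some r => some ⟨z', I', J', up P s', (a.e + up P r) / 2 ^ t + 1, a.p - t⟩
          | none => none
        else none
      else none
    | .negSucc _ => none
  else none

theorem roundC_sound (hP : P.Ok) {t I' J' : ℕ} {a c : Cell} {x : W} (ha : Enc A x a)
    (h : roundC P t I' J' a = some c) : Enc A x c := by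
  unfold roundC at h
  split at h
  · rename_i h0
    simp only [Bool.and_eq_true, Nat.ble_eq] at h0
    obtain ⟨⟨⟨hI, hJ⟩, ht⟩, htb⟩ := h0
    rw [forceN_eq] at h
    split at h
    · rename_i n hn
      simp only [forceN_eq, forceZ_eq] at h
      set p := posP P a.z with hp
      set sh := t + P.b * ((a.I - I') + P.W * (a.J - J')) with hsh
      set p' := ((p + 2 ^ t / 2 * P.R) >>> sh) &&& boxMask P (P.b - t) I' J' with hp'
      set n' := ((n + 2 ^ t / 2 * P.R) >>> sh) &&& boxMask P (P.b - t) I' J' with hn'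
      split at h
      · rename_i hc
        simp only [chk, Bool.and_eq_true, Nat.ble_eq, Nat.beq_eq] at hc
        obtain ⟨⟨c1, c2⟩, c3, c4⟩ := hc
        rw [hP.hTD] at c1 c3
        split at h
        · rename_i hs
          rw [Nat.ble_eq] at hs
          split at h
          · rename_i r hr
            injection h with h
            subst h
            obtain ⟨u, u1, u2, u3, u4⟩ := ha.ex
            have hI0 : I' ≤ P.I0 := hI.trans u1.hI
            have hJ0 : J' ≤ P.J0 := hJ.trans u1.hJ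
            have rp : Rep P (ofDig P p' I' J') (p' : ℤ) I' J' :=
              Rep.ofDig hP (t := P.b - t) (Nat.sub_le _ _) hI0 hJ0 (by omega)
            have rn : Rep P (ofDig P n' I' J') (n' : ℤ) I' J' :=
              Rep.ofDig hP (t := P.b - t) (Nat.sub_le _ _) hI0 hJ0 (by omega)
            set c' : T := ofDig P p' I' J' - ofDig P n' I' J' with hc'
            have rc : Rep P c' ((p' : ℤ) - n') I' J' := rp.sub rn
            have sc : nrm c' ≤ p' % P.B1 + n' % P.B1 :=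
              (nrm_sub _ _).trans (Nat.add_le_add (ofDig_nrm hP (by omega) c2)
                (ofDig_nrm hP (by omega) c4))
            have re := (rc.enl hI hJ u1.hI u1.hJ).smul (2 ^ t)
            have rd := u1.sub re
            have sd : nrm (u - ((2 : ℤ) ^ t) • c') ≤ a.s + 2 ^ t * (p' % P.B1 + n' % P.B1) := by
              refine (nrm_sub _ _).trans (Nat.add_le_add u2 ((nrm_smul _ _).trans ?_))
              rw [Int.natAbs_pow]
              exact Nat.mul_le_mul_left _ sc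
            have hr' : absS P (a.z - 2 ^ t * (((p' : ℤ) - n')
                * 2 ^ (P.b * ((a.I - I') + P.W * (a.J - J'))))) = some r := by
              rw [← hr, hsh, pow_add]
              congr 1
              ring
            have hd : nrm (u - ((2 : ℤ) ^ t) • c') ≤ r := absS_sound hP rd (by omega) hr'
            have hid : ‖A.ι (u - ((2 : ℤ) ^ t) • c')‖ ≤ up P r := A.bd' rd.box rd.hI rd.hJ hd
            refine ⟨c', rc, sc.trans (le_up P _), A.bd' rc.box rc.hI rc.hJ sc, ?_⟩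
            · show ‖((2 : ℝ) ^ (a.p - t)) • x - A.ι c'‖
                ≤ (((a.e + up P r) / 2 ^ t + 1 : ℕ) : ℝ)
              have e1 : ((2 : ℝ) ^ (a.p - t)) • x - A.ι c'
                  = ((2 : ℝ) ^ t)⁻¹ • ((((2 : ℝ) ^ a.p) • x - A.ι u)
                    + A.ι (u - ((2 : ℤ) ^ t) • c')) := by
                rw [map_sub A.ι u, map_zsmul, sub_add_sub_cancel, smul_sub, smul_smul,
                  ← Int.cast_smul_eq_zsmul ℝ ((2 : ℤ) ^ t) (A.ι c'), smul_smul]
                have h2t : ((2 : ℝ) ^ t) ≠ 0 := by positivity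
                have e2 : ((2 : ℝ) ^ t)⁻¹ * 2 ^ a.p = 2 ^ (a.p - t) := by
                  have : a.p = (a.p - t) + t := by omega
                  conv_lhs => rw [this, pow_add]
                  field_simp
                have e3 : ((2 : ℝ) ^ t)⁻¹ * (((2 : ℤ) ^ t : ℤ) : ℝ) = 1 := by
                  push_cast
                  exact inv_mul_cancel₀ h2t
                rw [e2, e3, one_smul]
              rw [e1, norm_smul, norm_inv, Real.norm_of_nonneg (by positivity)]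
              have h3 : ‖(((2 : ℝ) ^ a.p) • x - A.ι u) + A.ι (u - ((2 : ℤ) ^ t) • c')‖
                  ≤ (a.e : ℝ) + up P r := (norm_add_le _ _).trans (add_le_add u4 hid)
              have h4 : ((a.e + up P r : ℕ) : ℝ) < (((a.e + up P r) / 2 ^ t : ℕ) + 1 : ℝ) * 2 ^ t := by
                have h := Nat.lt_div_mul_add (a := a.e + up P r) (b := 2 ^ t) (Nat.two_pow_pos _)
                have : ((a.e + up P r : ℕ) : ℝ)
                    < (((a.e + up P r) / 2 ^ t * 2 ^ t + 2 ^ t : ℕ) : ℝ) := by exact_mod_cast h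
                push_cast at this ⊢
                linarith
              rw [inv_mul_le_iff₀ (by positivity)]
              push_cast at h4 ⊢
              linarith
          · exact absurd h (by simp)
        · exact absurd h (by simp)
      · exact absurd h (by simp)
    · exact absurd h (by simp)
  · exact absurd h (by simp)

/-- the norm of an enclosed element -/
theorem Enc.norm_le {a : Cell} {x : W} (ha : Enc A x a) : ‖x‖ ≤ (a.s + a.e : ℝ) / 2 ^ a.p := by
  obtain ⟨u, u1, u2, u3, u4⟩ := ha.ex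
  have h2 : (0 : ℝ) < 2 ^ a.p := by positivity
  rw [le_div_iff₀ h2]
  have e1 : ‖((2 : ℝ) ^ a.p) • x‖ = ‖x‖ * 2 ^ a.p := by
    rw [norm_smul, Real.norm_of_nonneg h2.le, mul_comm]
  rw [← e1]
  have : ((2 : ℝ) ^ a.p) • x = A.ι u + (((2 : ℝ) ^ a.p) • x - A.ι u) := by abel
  rw [this]
  exact (norm_add_le _ _).trans (add_le_add u3 u4)

end

end Pool.Agent.H.MP_ce2c94_gt.h46
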