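import Mathlib
import Pool.Agent.H.MP_ce2c94_gt.h46.Ball

/-!
# Base data: quarter tables with parities, from one natural number literal

`tab I J ε δ f = ∑ f i j (x^i + ε x^-i)(y^j + δ y^-j)`, its derivatives, and the exact cell of it
computed from the row literals `N j = ∑_i (f i j + 2^(w-1)) 2^(w i)`.
-/

namespace Pool.Agent.H.MP_ce2c94_gt.h46

open AddMonoidAlgebra

noncomputable section

/-- multiplication of the coefficients by a function of the exponent -/
def mulBy (m : ℤ × ℤ → ℤ) : T →+ T where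
  toFun c := ofCoeff (Finsupp.onFinset c.coeff.support (fun k => m k * c.coeff k)
    (fun k hk => Finsupp.mem_support_iff.2 fun h => hk (by rw [h, mul_zero])))
  map_zero' := by ext k; simp
  map_add' c d := by ext k; simp [mul_add]

@[simp] theorem coeff_mulBy (m : ℤ × ℤ → ℤ) (c : T) (k : ℤ × ℤ) :
    (mulBy m c).coeff k = m k * c.coeff k := rfl

theorem mulBy_single (m : ℤ × ℤ → ℤ) (k : ℤ × ℤ) (a : ℤ) :
    mulBy m (single k a) = single k (m k * a) := by
  ext l
  rw [coeff_mulBy, coeff_single, coeff_single, Finsupp.single_apply, Finsupp.single_apply]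
  split_ifs with h
  · rw [h]
  · rw [mul_zero]

/-- the derivation `x ∂/∂x` -/
def D1 : T →+ T := mulBy fun k => k.1

/-- the derivation `y ∂/∂y` -/
def D2 : T →+ T := mulBy fun k => k.2

@[simp] theorem coeff_D1 (c : T) (k : ℤ × ℤ) : (D1 c).coeff k = k.1 * c.coeff k := rfl
@[simp] theorem coeff_D2 (c : T) (k : ℤ × ℤ) : (D2 c).coeff k = k.2 * c.coeff k := rfl

theorem D1_mul (c d : T) : D1 (c * d) = D1 c * d + c * D1 d := by
  have h1 : ∀ (k l : ℤ × ℤ) (a b : ℤ), D1 (single k a * single l b)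
      = D1 (single k a) * single l b + single k a * D1 (single l b) := by
    intro k l a b
    simp only [D1, single_mul_single, mulBy_single]
    rw [← single_add]
    congr 1
    show (k.1 + l.1) * (a * b) = _
    ring
  conv_lhs => rw [eq_sum_single c, eq_sum_single d]
  conv_rhs => rw [eq_sum_single c, eq_sum_single d]
  simp only [Finset.sum_mul, Finset.mul_sum, map_sum, h1, Finset.sum_add_distrib]

theorem D2_mul (c d : T) : D2 (c * d) = D2 c * d + c * D2 d := by
  have h1 : ∀ (k l : ℤ × ℤ) (a b : ℤ), D2 (single k a * single l b)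
      = D2 (single k a) * single l b + single k a * D2 (single l b) := by
    intro k l a b
    simp only [D2, single_mul_single, mulBy_single]
    rw [← single_add]
    congr 1
    show (k.2 + l.2) * (a * b) = _
    ring
  conv_lhs => rw [eq_sum_single c, eq_sum_single d]
  conv_rhs => rw [eq_sum_single c, eq_sum_single d]
  simp only [Finset.sum_mul, Finset.mul_sum, map_sum, h1, Finset.sum_add_distrib]

theorem D1_D2 (c : T) : D1 (D2 c) = D2 (D1 c) := by
  ext k; simp only [coeff_D1, coeff_D2]; ring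

/-- `a (x^i + ε x^-i)(y^j + δ y^-j)` -/
def quad (ε δ : ℤ) (i j : ℕ) (a : ℤ) : T :=
  single ((i : ℤ), (j : ℤ)) a + single (-(i : ℤ), (j : ℤ)) (ε * a)
    + single ((i : ℤ), -(j : ℤ)) (δ * a) + single (-(i : ℤ), -(j : ℤ)) (ε * δ * a)

theorem quad_D1 (ε δ : ℤ) (i j : ℕ) (a : ℤ) : D1 (quad ε δ i j a) = quad (-ε) δ i j (i * a) := by
  simp only [quad, map_add, D1, mulBy_single]
  congr 1
  · congr 1
    · congr 1; congr 1; ring
    · congr 1; ring
  · congr 1; ring

theorem quad_D2 (ε δ : ℤ) (i j : ℕ) (a : ℤ) : D2 (quad ε δ i j a) = quad ε (-δ) i j (j * a) := by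
  simp only [quad, map_add, D2, mulBy_single]
  congr 1
  · congr 1
    · congr 1; congr 1; ring
    · congr 1; ring
  · congr 1; ring

/-- trigonometric polynomial with parities `ε` in `u`, `δ` in `t` -/
def tab (I J : ℕ) (ε δ : ℤ) (f : ℕ → ℕ → ℤ) : T :=
  ∑ j ∈ Finset.range (J + 1), ∑ i ∈ Finset.range (I + 1), quad ε δ i j (f i j)

theorem tab_D1 (I J : ℕ) (ε δ : ℤ) (f : ℕ → ℕ → ℤ) :
    D1 (tab I J ε δ f) = tab I J (-ε) δ (fun i j => i * f i j) := by
  simp only [tab, map_sum, quad_D1]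

theorem tab_D2 (I J : ℕ) (ε δ : ℤ) (f : ℕ → ℕ → ℤ) :
    D2 (tab I J ε δ f) = tab I J ε (-δ) (fun i j => j * f i j) := by
  simp only [tab, map_sum, quad_D2]

/-- `D1^a D2^c` -/
def DD (a c : ℕ) (x : T) : T := D1^[a] (D2^[c] x)

theorem tab_DD (I J : ℕ) (ε δ : ℤ) (f : ℕ → ℕ → ℤ) (a c : ℕ) :
    DD a c (tab I J ε δ f) = tab I J ((-1) ^ a * ε) ((-1) ^ c * δ)
      (fun i j => (i ^ a * j ^ c : ℕ) * f i j) := by
  have h2 : ∀ c : ℕ, D2^[c] (tab I J ε δ f) = tab I J ε ((-1) ^ c * δ)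
      (fun i j => (j ^ c : ℕ) * f i j) := by
    intro c
    induction c with
    | zero => simp
    | succ c ih =>
      rw [Function.iterate_succ_apply', ih, tab_D2]
      congr 1
      · ring
      · funext i j; push_cast; ring
  have h1 : ∀ (a : ℕ) (g : ℕ → ℕ → ℤ) (δ' : ℤ), D1^[a] (tab I J ε δ' g)
      = tab I J ((-1) ^ a * ε) δ' (fun i j => (i ^ a : ℕ) * g i j) := by
    intro a g δ'
    induction a with
    | zero => simp
    | succ a ih =>
      rw [Function.iterate_succ_apply', ih, tab_D1]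
      congr 1
      · ring
      · funext i j; push_cast; ring
  rw [DD, h2, h1]
  congr 1
  funext i j; push_cast; ring

end

/-! ### kernel side -/

/-- the `n`-th element -/
def nth {α : Type*} : List α → ℕ → Option α
  | [], _ => none
  | a :: _, 0 => some a
  | _ :: l, n + 1 => nth l n

/-- the `n`-th row -/
def nthD : List ℕ → ℕ → ℕ
  | [], _ => 0
  | a :: _, 0 => a
  | _ :: l, n + 1 => nthD l n

/-- the digit `n` of the row literal `N`, digit width `w`, `m = 2^w - 1` -/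
def dgM (m N w n : ℕ) : ℕ := Nat.land (Nat.shiftRight N (Nat.mul w n)) m

/-- the digit of the row literal -/
def dgN (N w n : ℕ) : ℕ := dgM (Nat.pred (Nat.pow 2 w)) N w n

/-- table entry `(i, j)` of the row literals `N` with digit width `w` (`_r` is not used) -/
def qf (N : List ℕ) (w _r : ℕ) (i j : ℕ) : ℤ := (dgN (nthD N j) w i : ℤ) - 2 ^ (w - 1)

/-! #### binary splitting -/

/-- the length of the first part -/
def spl (l : ℕ) : ℕ :=
  match Nat.ble 16 l with
  | true => Nat.mul 8 (Nat.div l 16)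
  | false => match Nat.ble l 8 with
    | true => Nat.div l 2
    | false => 8

theorem spl_spec {l : ℕ} (h : 1 < l) : 1 ≤ spl l ∧ spl l < l := by
  unfold spl
  split
  · rename_i h1
    rw [Nat.ble_eq] at h1
    show 1 ≤ 8 * (l / 16) ∧ 8 * (l / 16) < l
    omega
  · split
    · show 1 ≤ l / 2 ∧ l / 2 < l
      omega
    · rename_i h1 h2
      have h3 : ¬ l ≤ 8 := by
        intro h3
        rw [← Nat.ble_eq, h2] at h3
        exact absurd h3 (by simp)
      omega

/-- `∑_{i < l} g (s + i) 2^(b i)` for `l ≤ f`; `g8` computes blocks of length `8` -/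
def bsP (b : ℕ) (g g8 : ℕ → ℕ) (f : ℕ) : ℕ → ℕ → ℕ :=
  @Nat.rec (fun _ => ℕ → ℕ → ℕ) (fun _ _ => 0)
    (fun _ ih s l =>
      match Nat.beq l 8 with
      | true => g8 s
      | false => match Nat.ble l 1 with
        | true => @Nat.rec (fun _ => ℕ) 0 (fun _ _ => g s) l
        | false => forceN (spl l) fun h => forceN (Nat.sub l h) fun l' =>
          forceN (Nat.add s h) fun s' =>
          Nat.add (ih s h) (Nat.shiftLeft (ih s' l') (Nat.mul b h))) f

/-- `∑_{i < l} g (s + i) 2^(b (l - 1 - i))` for `l ≤ f` -/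
def bsM (b : ℕ) (g g8 : ℕ → ℕ) (f : ℕ) : ℕ → ℕ → ℕ :=
  @Nat.rec (fun _ => ℕ → ℕ → ℕ) (fun _ _ => 0)
    (fun _ ih s l =>
      match Nat.beq l 8 with
      | true => g8 s
      | false => match Nat.ble l 1 with
        | true => @Nat.rec (fun _ => ℕ) 0 (fun _ _ => g s) l
        | false => forceN (spl l) fun h => forceN (Nat.sub l h) fun l' =>
          forceN (Nat.add s h) fun s' =>
          Nat.add (ih s' l') (Nat.shiftLeft (ih s h) (Nat.mul b l'))) f

theorem bsP_eq (b : ℕ) (g g8 : ℕ → ℕ) (h8 : ∀ s, g8 s = ∑ i ∈ Finset.range 8, g (s + i) * 2 ^ (b * i))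
    (f : ℕ) : ∀ s l, l ≤ f →
    bsP b g g8 f s l = ∑ i ∈ Finset.range l, g (s + i) * 2 ^ (b * i) := by
  induction f with
  | zero =>
    intro s l hl
    rw [Nat.le_zero.1 hl]
    rfl
  | succ f ih =>
    intro s l hl
    have hs : bsP b g g8 (f + 1) s l = match Nat.beq l 8 with
      | true => g8 s
      | false => match Nat.ble l 1 with
        | true => @Nat.rec (fun _ => ℕ) 0 (fun _ _ => g s) l
        | false => forceN (spl l) fun h => forceN (Nat.sub l h) fun l' =>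
          forceN (Nat.add s h) fun s' =>
          Nat.add (bsP b g g8 f s h) (Nat.shiftLeft (bsP b g g8 f s' l') (Nat.mul b h)) := rfl
    rw [hs]
    split
    · rename_i h
      rw [Nat.beq_eq] at h
      rw [h8, h]
    split
    · rename_i h
      rw [Nat.ble_eq] at h
      interval_cases l
      · rfl
      · simp
    · rename_i h
      have h1 : ¬ l ≤ 1 := by
        intro h1
        rw [← Nat.ble_eq, h] at h1
        exact absurd h1 (by simp)
      obtain ⟨k1, k2⟩ := spl_spec (l := l) (by omega)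
      rw [forceN_eq, forceN_eq, forceN_eq]
      show bsP b g g8 f s (spl l) + (bsP b g g8 f (s + spl l) (l - spl l)) <<< (b * (spl l)) = _
      generalize spl l = h at k1 k2
      rw [ih _ _ (by omega), ih _ _ (by omega), Nat.shiftLeft_eq]
      conv_rhs => rw [show Finset.range l = Finset.range (h + (l - h)) from by
        congr 1; omega, Finset.sum_range_add]
      congr 1
      rw [Finset.sum_mul]
      refine Finset.sum_congr rfl fun i _ => ?_
      rw [Nat.mul_add, pow_add, Nat.add_assoc]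
      ring

theorem bsM_eq (b : ℕ) (g g8 : ℕ → ℕ)
    (h8 : ∀ s, g8 s = ∑ i ∈ Finset.range 8, g (s + i) * 2 ^ (b * (8 - 1 - i)))
    (f : ℕ) : ∀ s l, l ≤ f →
    bsM b g g8 f s l = ∑ i ∈ Finset.range l, g (s + i) * 2 ^ (b * (l - 1 - i)) := by
  induction f with
  | zero =>
    intro s l hl
    rw [Nat.le_zero.1 hl]
    rfl
  | succ f ih =>
    intro s l hl
    have hs : bsM b g g8 (f + 1) s l = match Nat.beq l 8 with
      | true => g8 s
      | false => match Nat.ble l 1 with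
        | true => @Nat.rec (fun _ => ℕ) 0 (fun _ _ => g s) l
        | false => forceN (spl l) fun h => forceN (Nat.sub l h) fun l' =>
          forceN (Nat.add s h) fun s' =>
          Nat.add (bsM b g g8 f s' l') (Nat.shiftLeft (bsM b g g8 f s h) (Nat.mul b l')) := rfl
    rw [hs]
    split
    · rename_i h
      rw [Nat.beq_eq] at h
      rw [h8, h]
    split
    · rename_i h
      rw [Nat.ble_eq] at h
      interval_cases l
      · rfl
      · simp
    · rename_i h
      have h1 : ¬ l ≤ 1 := by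
        intro h1
        rw [← Nat.ble_eq, h] at h1
        exact absurd h1 (by simp)
      obtain ⟨k1, k2⟩ := spl_spec (l := l) (by omega)
      rw [forceN_eq, forceN_eq, forceN_eq]
      show bsM b g g8 f (s + spl l) (l - spl l) + (bsM b g g8 f s (spl l)) <<< (b * (l - spl l)) = _
      generalize spl l = h at k1 k2
      rw [ih _ _ (by omega), ih _ _ (by omega), Nat.shiftLeft_eq]
      conv_rhs => rw [show Finset.range l = Finset.range (h + (l - h)) from by
        congr 1; omega, Finset.sum_range_add]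
      rw [add_comm]
      congr 1
      · rw [Finset.sum_mul]
        refine Finset.sum_congr rfl fun i hi => ?_
        rw [Finset.mem_range] at hi
        rw [mul_assoc, ← pow_add, ← Nat.mul_add]
        congr 3
        omega
      · refine Finset.sum_congr rfl fun i hi => ?_
        rw [Finset.mem_range] at hi
        rw [Nat.add_assoc]
        congr 3
        omega

/-- a polynomial in `2^b` with eight coefficients -/
def hor (b x0 x1 x2 x3 x4 x5 x6 x7 : ℕ) : ℕ :=
  Nat.add x0 (Nat.shiftLeft (Nat.add x1 (Nat.shiftLeft (Nat.add x2 (Nat.shiftLeft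
    (Nat.add x3 (Nat.shiftLeft (Nat.add x4 (Nat.shiftLeft (Nat.add x5 (Nat.shiftLeft
      (Nat.add x6 (Nat.shiftLeft x7 b)) b)) b)) b)) b)) b)) b)

theorem hor_eq (b x0 x1 x2 x3 x4 x5 x6 x7 : ℕ) : hor b x0 x1 x2 x3 x4 x5 x6 x7
    = x0 * 2 ^ (b * 0) + x1 * 2 ^ (b * 1) + x2 * 2 ^ (b * 2) + x3 * 2 ^ (b * 3) + x4 * 2 ^ (b * 4)
      + x5 * 2 ^ (b * 5) + x6 * 2 ^ (b * 6) + x7 * 2 ^ (b * 7) := by
  have sl : ∀ n k : ℕ, Nat.shiftLeft n k = n * 2 ^ k := fun n k => Nat.shiftLeft_eq n k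
  have ad : ∀ n k : ℕ, Nat.add n k = n + k := fun n k => rfl
  simp only [hor, sl, ad]
  ring

/-- the block of eight digits at `s`; `m = 2^w - 1`, `m8 = 2^(8 w) - 1` -/
def y8 (m8 w N s : ℕ) : ℕ := Nat.land (Nat.shiftRight N (Nat.mul w s)) m8

/-- the block of eight coefficients `g_i i^a` -/
def blk (m m8 b w a N s : ℕ) : ℕ :=
  match a with
  | 0 =>
    (fun y => hor b (Nat.land y m) (dgM m y w 1) (dgM m y w 2) (dgM m y w 3) (dgM m y w 4)
      (dgM m y w 5) (dgM m y w 6) (dgM m y w 7)) (y8 m8 w N s)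
  | a + 1 =>
    (fun y => hor b (Nat.mul (Nat.land y m) (Nat.pow s (Nat.succ a)))
      (Nat.mul (dgM m y w 1) (Nat.pow (Nat.add s 1) (Nat.succ a)))
      (Nat.mul (dgM m y w 2) (Nat.pow (Nat.add s 2) (Nat.succ a)))
      (Nat.mul (dgM m y w 3) (Nat.pow (Nat.add s 3) (Nat.succ a)))
      (Nat.mul (dgM m y w 4) (Nat.pow (Nat.add s 4) (Nat.succ a)))
      (Nat.mul (dgM m y w 5) (Nat.pow (Nat.add s 5) (Nat.succ a)))
      (Nat.mul (dgM m y w 6) (Nat.pow (Nat.add s 6) (Nat.succ a)))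
      (Nat.mul (dgM m y w 7) (Nat.pow (Nat.add s 7) (Nat.succ a)))) (y8 m8 w N s)

/-- the block of eight coefficients `g_i i^a`, reversed -/
def blkM (m m8 b w a N s : ℕ) : ℕ :=
  match a with
  | 0 =>
    (fun y => hor b (dgM m y w 7) (dgM m y w 6) (dgM m y w 5) (dgM m y w 4) (dgM m y w 3)
      (dgM m y w 2) (dgM m y w 1) (Nat.land y m)) (y8 m8 w N s)
  | a + 1 =>
    (fun y => hor b (Nat.mul (dgM m y w 7) (Nat.pow (Nat.add s 7) (Nat.succ a)))
      (Nat.mul (dgM m y w 6) (Nat.pow (Nat.add s 6) (Nat.succ a)))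
      (Nat.mul (dgM m y w 5) (Nat.pow (Nat.add s 5) (Nat.succ a)))
      (Nat.mul (dgM m y w 4) (Nat.pow (Nat.add s 4) (Nat.succ a)))
      (Nat.mul (dgM m y w 3) (Nat.pow (Nat.add s 3) (Nat.succ a)))
      (Nat.mul (dgM m y w 2) (Nat.pow (Nat.add s 2) (Nat.succ a)))
      (Nat.mul (dgM m y w 1) (Nat.pow (Nat.add s 1) (Nat.succ a)))
      (Nat.mul (Nat.land y m) (Nat.pow s (Nat.succ a)))) (y8 m8 w N s)

theorem dgM_div (w y r : ℕ) : dgM (2 ^ w - 1) y w r = y / 2 ^ (w * r) % 2 ^ w := by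
  show (y >>> (w * r)) &&& (2 ^ w - 1) = _
  rw [Nat.and_two_pow_sub_one_eq_mod, Nat.shiftRight_eq_div_pow]

theorem dg_blk (w N s r : ℕ) (hr : r < 8) :
    dgM (2 ^ w - 1) (y8 (2 ^ (8 * w) - 1) w N s) w r = dgM (2 ^ w - 1) N w (s + r) := by
  rw [dgM_div, dgM_div]
  have hy : y8 (2 ^ (8 * w) - 1) w N s = N / 2 ^ (w * s) % 2 ^ (8 * w) := by
    show (N >>> (w * s)) &&& (2 ^ (8 * w) - 1) = _
    rw [Nat.and_two_pow_sub_one_eq_mod, Nat.shiftRight_eq_div_pow]
  have h8 : w * r + w ≤ 8 * w := by nlinarith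
  rw [hy]
  apply Nat.eq_of_testBit_eq
  intro i
  simp only [Nat.testBit_mod_two_pow, Nat.testBit_div_two_pow]
  by_cases hi : i < w
  · have h1 : i + w * r < 8 * w := by omega
    have h2 : i + w * r + w * s = i + w * (s + r) := by ring
    simp [hi, h1, h2]
  · simp [hi]

theorem dg_blk0 (w N s : ℕ) :
    Nat.land (y8 (2 ^ (8 * w) - 1) w N s) (2 ^ w - 1) = dgM (2 ^ w - 1) N w (s + 0) := by
  rw [← dg_blk w N s 0 (by omega)]
  rfl

theorem blk_eq (b w a N s : ℕ) : blk (2 ^ w - 1) (2 ^ (8 * w) - 1) b w a N s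
    = ∑ i ∈ Finset.range 8, dgM (2 ^ w - 1) N w (s + i) * (s + i) ^ a * 2 ^ (b * i) := by
  simp only [Finset.sum_range_succ, Finset.sum_range_zero, zero_add]
  cases a with
  | zero =>
    simp only [blk, hor_eq, dg_blk0, dg_blk w N s 1 (by omega), dg_blk w N s 2 (by omega),
      dg_blk w N s 3 (by omega), dg_blk w N s 4 (by omega), dg_blk w N s 5 (by omega),
      dg_blk w N s 6 (by omega), dg_blk w N s 7 (by omega), pow_zero, mul_one]
  | succ a =>
    have pw : ∀ n k : ℕ, Nat.pow n k = n ^ k := fun n k => rfl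
    have ml : ∀ n k : ℕ, Nat.mul n k = n * k := fun n k => rfl
    have ad : ∀ n k : ℕ, Nat.add n k = n + k := fun n k => rfl
    simp only [blk, hor_eq, dg_blk0, dg_blk w N s 1 (by omega), dg_blk w N s 2 (by omega),
      dg_blk w N s 3 (by omega), dg_blk w N s 4 (by omega), dg_blk w N s 5 (by omega),
      dg_blk w N s 6 (by omega), dg_blk w N s 7 (by omega), pw, ml, ad, add_zero]

theorem blkM_eq (b w a N s : ℕ) : blkM (2 ^ w - 1) (2 ^ (8 * w) - 1) b w a N s
    = ∑ i ∈ Finset.range 8, dgM (2 ^ w - 1) N w (s + i) * (s + i) ^ a * 2 ^ (b * (8 - 1 - i)) := by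
  simp only [Finset.sum_range_succ, Finset.sum_range_zero, zero_add]
  cases a with
  | zero =>
    simp only [blkM, hor_eq, dg_blk0, dg_blk w N s 1 (by omega), dg_blk w N s 2 (by omega),
      dg_blk w N s 3 (by omega), dg_blk w N s 4 (by omega), dg_blk w N s 5 (by omega),
      dg_blk w N s 6 (by omega), dg_blk w N s 7 (by omega), pow_zero, mul_one]
    norm_num
    ring
  | succ a =>
    have pw : ∀ n k : ℕ, Nat.pow n k = n ^ k := fun n k => rfl
    have ml : ∀ n k : ℕ, Nat.mul n k = n * k := fun n k => rfl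
    have ad : ∀ n k : ℕ, Nat.add n k = n + k := fun n k => rfl
    simp only [blkM, hor_eq, dg_blk0, dg_blk w N s 1 (by omega), dg_blk w N s 2 (by omega),
      dg_blk w N s 3 (by omega), dg_blk w N s 4 (by omega), dg_blk w N s 5 (by omega),
      dg_blk w N s 6 (by omega), dg_blk w N s 7 (by omega), pw, ml, ad, add_zero]
    norm_num
    ring

/-- the block of eight powers `i^a` -/
def pw8 (b a s : ℕ) : ℕ :=
  hor b (Nat.pow s a) (Nat.pow (Nat.add s 1) a) (Nat.pow (Nat.add s 2) a)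
    (Nat.pow (Nat.add s 3) a) (Nat.pow (Nat.add s 4) a) (Nat.pow (Nat.add s 5) a)
    (Nat.pow (Nat.add s 6) a) (Nat.pow (Nat.add s 7) a)

/-- the block of eight powers `i^a`, reversed -/
def pw8M (b a s : ℕ) : ℕ :=
  hor b (Nat.pow (Nat.add s 7) a) (Nat.pow (Nat.add s 6) a) (Nat.pow (Nat.add s 5) a)
    (Nat.pow (Nat.add s 4) a) (Nat.pow (Nat.add s 3) a) (Nat.pow (Nat.add s 2) a)
    (Nat.pow (Nat.add s 1) a) (Nat.pow s a)

theorem pw8_eq (b a s : ℕ) : pw8 b a s
    = ∑ i ∈ Finset.range 8, Nat.pow (s + i) a * 2 ^ (b * i) := by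
  have pw : ∀ n k : ℕ, Nat.pow n k = n ^ k := fun n k => rfl
  have ad : ∀ n k : ℕ, Nat.add n k = n + k := fun n k => rfl
  simp only [Finset.sum_range_succ, Finset.sum_range_zero, zero_add, pw8, hor_eq, pw, ad, add_zero]

theorem pw8M_eq (b a s : ℕ) : pw8M b a s
    = ∑ i ∈ Finset.range 8, Nat.pow (s + i) a * 2 ^ (b * (8 - 1 - i)) := by
  have pw : ∀ n k : ℕ, Nat.pow n k = n ^ k := fun n k => rfl
  have ad : ∀ n k : ℕ, Nat.add n k = n + k := fun n k => rfl
  simp only [Finset.sum_range_succ, Finset.sum_range_zero, zero_add, pw8M, hor_eq, pw, ad, add_zero]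
  norm_num
  ring

/-- `p - n` -/
def sbZ (p n : ℕ) : ℤ :=
  match Nat.ble n p with
  | true => Int.ofNat (Nat.sub p n)
  | false => Int.negSucc (Nat.pred (Nat.sub n p))

theorem sbZ_eq (p n : ℕ) : sbZ p n = (p : ℤ) - n := by
  unfold sbZ
  split
  · rename_i h
    rw [Nat.ble_eq] at h
    show (((p - n : ℕ)) : ℤ) = _
    omega
  · rename_i h
    have h' : ¬ n ≤ p := by
      intro h1
      rw [← Nat.ble_eq, h] at h1
      exact absurd h1 (by simp)
    show Int.negSucc (n - p - 1) = _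
    rw [Int.negSucc_eq]
    omega

/-- `x + y 2^k` -/
def amZ (x y : ℤ) (k : ℕ) : ℤ :=
  match y with
  | .ofNat n => match x with
    | .ofNat m => .ofNat (Nat.add m (Nat.shiftLeft n k))
    | .negSucc m => sbZ (Nat.shiftLeft n k) (Nat.succ m)
  | .negSucc n => match x with
    | .ofNat m => sbZ m (Nat.shiftLeft (Nat.succ n) k)
    | .negSucc m => .negSucc (Nat.add m (Nat.shiftLeft (Nat.succ n) k))

theorem amZ_eq (x y : ℤ) (k : ℕ) : amZ x y k = x + y * 2 ^ k := by
  have e : ∀ n : ℕ, Nat.shiftLeft n k = n * 2 ^ k := fun n => Nat.shiftLeft_eq n k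
  cases y with
  | ofNat n =>
    cases x with
    | ofNat m =>
      show Int.ofNat (m + Nat.shiftLeft n k) = _
      rw [e]
      simp only [Int.ofNat_eq_natCast]
      push_cast
      rfl
    | negSucc m =>
      show sbZ (Nat.shiftLeft n k) (Nat.succ m) = _
      rw [sbZ_eq, e]
      simp only [Int.ofNat_eq_natCast, Int.negSucc_eq, Nat.succ_eq_add_one]
      push_cast
      ring
  | negSucc n =>
    cases x with
    | ofNat m =>
      show sbZ m (Nat.shiftLeft (Nat.succ n) k) = _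
      rw [sbZ_eq, e]
      simp only [Int.ofNat_eq_natCast, Int.negSucc_eq, Nat.succ_eq_add_one]
      push_cast
      ring
    | negSucc m =>
      show Int.negSucc (m + Nat.shiftLeft (Nat.succ n) k) = _
      rw [e]
      simp only [Int.negSucc_eq, Nat.succ_eq_add_one]
      push_cast
      ring

/-- `∑_{j < l} g (s + j) 2^(v j)` for `l ≤ f` -/
def bzP (v : ℕ) (g : ℕ → ℤ) (f : ℕ) : ℕ → ℕ → ℤ :=
  @Nat.rec (fun _ => ℕ → ℕ → ℤ) (fun _ _ => 0)
    (fun _ ih s l =>
      match Nat.ble l 1 with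
      | true => @Nat.rec (fun _ => ℤ) 0 (fun _ _ => g s) l
      | false => forceN (Nat.div l 2) fun h => forceN (Nat.sub l h) fun l' =>
        forceN (Nat.add s h) fun s' => amZ (ih s h) (ih s' l') (Nat.mul v h)) f

/-- `∑_{j < l} g (s + j) 2^(v (l - 1 - j))` for `l ≤ f` -/
def bzM (v : ℕ) (g : ℕ → ℤ) (f : ℕ) : ℕ → ℕ → ℤ :=
  @Nat.rec (fun _ => ℕ → ℕ → ℤ) (fun _ _ => 0)
    (fun _ ih s l =>
      match Nat.ble l 1 with
      | true => @Nat.rec (fun _ => ℤ) 0 (fun _ _ => g s) l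
      | false => forceN (Nat.div l 2) fun h => forceN (Nat.sub l h) fun l' =>
        forceN (Nat.add s h) fun s' => amZ (ih s' l') (ih s h) (Nat.mul v l')) f

theorem bzP_eq (v : ℕ) (g : ℕ → ℤ) (f : ℕ) : ∀ s l, l ≤ f →
    bzP v g f s l = ∑ i ∈ Finset.range l, g (s + i) * 2 ^ (v * i) := by
  induction f with
  | zero =>
    intro s l hl
    rw [Nat.le_zero.1 hl]
    rfl
  | succ f ih =>
    intro s l hl
    have hs : bzP v g (f + 1) s l = match Nat.ble l 1 with
      | true => @Nat.rec (fun _ => ℤ) 0 (fun _ _ => g s) l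
      | false => forceN (Nat.div l 2) fun h => forceN (Nat.sub l h) fun l' =>
        forceN (Nat.add s h) fun s' => amZ (bzP v g f s h) (bzP v g f s' l') (Nat.mul v h) := rfl
    rw [hs]
    split
    · rename_i h
      rw [Nat.ble_eq] at h
      interval_cases l
      · rfl
      · simp
    · rename_i h
      have h1 : ¬ l ≤ 1 := by
        intro h1
        rw [← Nat.ble_eq, h] at h1
        exact absurd h1 (by simp)
      rw [forceN_eq, forceN_eq, forceN_eq, amZ_eq]
      show bzP v g f s (l / 2) + bzP v g f (s + l / 2) (l - l / 2) * 2 ^ (v * (l / 2)) = _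
      rw [ih _ _ (by omega), ih _ _ (by omega)]
      conv_rhs => rw [show Finset.range l = Finset.range (l / 2 + (l - l / 2)) from by
        congr 1; omega, Finset.sum_range_add]
      congr 1
      rw [Finset.sum_mul]
      refine Finset.sum_congr rfl fun i _ => ?_
      rw [Nat.mul_add, pow_add, Nat.add_assoc]
      ring

theorem bzM_eq (v : ℕ) (g : ℕ → ℤ) (f : ℕ) : ∀ s l, l ≤ f →
    bzM v g f s l = ∑ i ∈ Finset.range l, g (s + i) * 2 ^ (v * (l - 1 - i)) := by
  induction f with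
  | zero =>
    intro s l hl
    rw [Nat.le_zero.1 hl]
    rfl
  | succ f ih =>
    intro s l hl
    have hs : bzM v g (f + 1) s l = match Nat.ble l 1 with
      | true => @Nat.rec (fun _ => ℤ) 0 (fun _ _ => g s) l
      | false => forceN (Nat.div l 2) fun h => forceN (Nat.sub l h) fun l' =>
        forceN (Nat.add s h) fun s' => amZ (bzM v g f s' l') (bzM v g f s h) (Nat.mul v l') := rfl
    rw [hs]
    split
    · rename_i h
      rw [Nat.ble_eq] at h
      interval_cases l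
      · rfl
      · simp
    · rename_i h
      have h1 : ¬ l ≤ 1 := by
        intro h1
        rw [← Nat.ble_eq, h] at h1
        exact absurd h1 (by simp)
      rw [forceN_eq, forceN_eq, forceN_eq, amZ_eq]
      show bzM v g f (s + l / 2) (l - l / 2) + bzM v g f s (l / 2) * 2 ^ (v * (l - l / 2)) = _
      rw [ih _ _ (by omega), ih _ _ (by omega)]
      conv_rhs => rw [show Finset.range l = Finset.range (l / 2 + (l - l / 2)) from by
        congr 1; omega, Finset.sum_range_add]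
      rw [add_comm]
      congr 1
      · rw [Finset.sum_mul]
        refine Finset.sum_congr rfl fun i hi => ?_
        rw [Finset.mem_range] at hi
        rw [mul_assoc, ← pow_add, ← Nat.mul_add]
        congr 3
        omega
      · refine Finset.sum_congr rfl fun i hi => ?_
        rw [Finset.mem_range] at hi
        rw [Nat.add_assoc]
        congr 3
        omega

/-- `g_i i^a` -/
def dga (m w a N i : ℕ) : ℕ := match a with
  | 0 => dgM m N w i
  | a + 1 => Nat.mul (dgM m N w i) (Nat.pow i (Nat.succ a))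

theorem dga_eq (m w a N i : ℕ) : dga m w a N i = dgM m N w i * i ^ a := by
  cases a with
  | zero => simp [dga]
  | succ a => rfl

/-- the row `∑_i (g_i - 2^(w-1)) i^a (B^(I+i) + ε B^(I-i))`; `op, om` are the same sums of the
offsets -/
def rowZ (m m8 b w a I : ℕ) (ε : ℤ) (op om N : ℕ) : ℤ :=
  (Nat.shiftLeft (bsP b (dga m w a N) (blk m m8 b w a N) (Nat.succ I) 0 (Nat.succ I))
    (Nat.mul b I) - op : ℤ) +
    ε * ((bsM b (dga m w a N) (blkM m m8 b w a N) (Nat.succ I) 0 (Nat.succ I) : ℤ) - om)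

/-- the `j`-th row, with the factor `j^c` -/
def rowJ (m m8 b w a c I : ℕ) (ε : ℤ) (op om : ℕ) (N : List ℕ) (j : ℕ) : ℤ :=
  forceN (nthD N j) fun Nj =>
  ((Nat.pow j c : ℕ) : ℤ) * rowZ m m8 b w a I ε op om Nj

/-- the packed value of `DD a c (tab I J ε δ (qf N w (I+1)))` -/
def tabZ (b W w a c I J : ℕ) (ε δ : ℤ) (N : List ℕ) : ℤ :=
  forceN (Nat.sub (Nat.pow 2 w) 1) fun m =>
  forceN (Nat.sub (Nat.pow 2 (Nat.mul 8 w)) 1) fun m8 =>
  forceN (Nat.mul (2 ^ (w - 1)) (Nat.shiftLeft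
    (bsP b (fun i => Nat.pow i a) (pw8 b a) (Nat.succ I) 0 (Nat.succ I)) (Nat.mul b I))) fun op =>
  forceN (Nat.mul (2 ^ (w - 1))
    (bsM b (fun i => Nat.pow i a) (pw8M b a) (Nat.succ I) 0 (Nat.succ I))) fun om =>
  amZ ((-1) ^ c * δ * bzM (b * W) (rowJ m m8 b w a c I ((-1) ^ a * ε) op om N) (Nat.succ J) 0
    (Nat.succ J)) (bzP (b * W) (rowJ m m8 b w a c I ((-1) ^ a * ε) op om N) (Nat.succ J) 0
    (Nat.succ J)) (Nat.mul (b * W) J)

theorem dgN_eq (N w n : ℕ) : dgN N w n = N / 2 ^ (w * n) % 2 ^ w := by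
  show (N >>> (w * n)) &&& (2 ^ w - 1) = _
  rw [Nat.and_two_pow_sub_one_eq_mod, Nat.shiftRight_eq_div_pow]

theorem rowZ_eq (b w a I : ℕ) (ε : ℤ) (N : List ℕ) (j : ℕ) :
    rowZ (Nat.sub (Nat.pow 2 w) 1) (Nat.sub (Nat.pow 2 (Nat.mul 8 w)) 1) b w a I ε
      (Nat.mul (2 ^ (w - 1)) (Nat.shiftLeft
        (bsP b (fun i => Nat.pow i a) (pw8 b a) (Nat.succ I) 0 (Nat.succ I)) (Nat.mul b I)))
      (Nat.mul (2 ^ (w - 1))
        (bsM b (fun i => Nat.pow i a) (pw8M b a) (Nat.succ I) 0 (Nat.succ I)))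
      (nthD N j)
      = ∑ i ∈ Finset.range (I + 1), ((i ^ a : ℕ) : ℤ) * qf N w (I + 1) i j
          * (2 ^ (b * (I + i)) + ε * 2 ^ (b * (I - i))) := by
  have hm : Nat.sub (Nat.pow 2 w) 1 = 2 ^ w - 1 := rfl
  have hm8 : Nat.sub (Nat.pow 2 (Nat.mul 8 w)) 1 = 2 ^ (8 * w) - 1 := rfl
  rw [rowZ, hm, hm8, bsP_eq _ _ _ (fun s => by
      rw [blk_eq]; exact Finset.sum_congr rfl fun i _ => by rw [dga_eq]) _ _ _ le_rfl,
    bsP_eq _ _ _ (pw8_eq b a) _ _ _ le_rfl, bsM_eq _ _ _ (fun s => by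
      rw [blkM_eq]; exact Finset.sum_congr rfl fun i _ => by rw [dga_eq]) _ _ _ le_rfl,
    bsM_eq _ _ _ (pw8M_eq b a) _ _ _ le_rfl]
  have sl : ∀ n k : ℕ, Nat.shiftLeft n k = n * 2 ^ k := fun n k => Nat.shiftLeft_eq n k
  have e1 : ∀ i, dga (2 ^ w - 1) w a (nthD N j) (0 + i)
      = dgN (nthD N j) w i * i ^ a := by
    intro i
    rw [zero_add, dga_eq]
    rfl
  have e2 : ∀ i, Nat.pow (0 + i) a = i ^ a := by
    intro i
    rw [zero_add]
    rfl
  have e3 : ∀ i, Nat.succ I - 1 - i = I - i := fun i => by rw [Nat.succ_sub_one]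
  simp only [sl, e1, e2, e3, Nat.succ_eq_add_one]
  show ((((∑ i ∈ Finset.range (I + 1), dgN (nthD N j) w i * i ^ a * 2 ^ (b * i))
        * 2 ^ (b * I) : ℕ) : ℤ) - ((2 ^ (w - 1) * ((∑ i ∈ Finset.range (I + 1),
          i ^ a * 2 ^ (b * i)) * 2 ^ (b * I)) : ℕ) : ℤ)) + ε
      * ((((∑ i ∈ Finset.range (I + 1), dgN (nthD N j) w i * i ^ a * 2 ^ (b * (I - i)) : ℕ) : ℤ))
        - ((2 ^ (w - 1) * (∑ i ∈ Finset.range (I + 1), i ^ a * 2 ^ (b * (I - i))) : ℕ) : ℤ)) = _
  push_cast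
  simp only [Finset.sum_mul, Finset.mul_sum, ← Finset.sum_sub_distrib, ← Finset.sum_add_distrib]
  refine Finset.sum_congr rfl fun i _ => ?_
  rw [qf, Nat.mul_add, pow_add (2 : ℤ)]
  ring

theorem tabZ_eq (b W w a c I J : ℕ) (ε δ : ℤ) (N : List ℕ) :
    tabZ b W w a c I J ε δ N
      = ∑ j ∈ Finset.range (J + 1), ∑ i ∈ Finset.range (I + 1),
        ((i ^ a * j ^ c : ℕ) : ℤ) * qf N w (I + 1) i j
          * ((2 ^ (b * (I + i)) + (-1) ^ a * ε * 2 ^ (b * (I - i)))
            * (2 ^ (b * W * (J + j)) + (-1) ^ c * δ * 2 ^ (b * W * (J - j)))) := by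
  rw [tabZ, forceN_eq, forceN_eq, forceN_eq, forceN_eq, amZ_eq, bzP_eq _ _ _ _ _ le_rfl,
    bzM_eq _ _ _ _ _ le_rfl, Finset.sum_mul, Finset.mul_sum, ← Finset.sum_add_distrib]
  refine Finset.sum_congr rfl fun j _ => ?_
  rw [zero_add, rowJ, forceN_eq, rowZ_eq]
  have e4 : b * W * (J + j) = b * W * J + b * W * j := by ring
  have e5 : Nat.succ J - 1 - j = J - j := by rw [Nat.succ_sub_one]
  have e6 : ((Nat.pow j c : ℕ) : ℤ) = ((j ^ c : ℕ) : ℤ) := rfl
  have e7 : Nat.mul (b * W) J = b * W * J := rfl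
  rw [e5, e4, e6, e7, pow_add]
  simp only [Finset.mul_sum, Finset.sum_mul, ← Finset.sum_add_distrib]
  refine Finset.sum_congr rfl fun i _ => ?_
  push_cast
  ring

/-! ### the packed value represents the table -/

theorem ev_quad (b W : ℕ) (ε δ : ℤ) {i j I J : ℕ} (a : ℤ) (hi : i ≤ I) (hj : j ≤ J) :
    ev b W (quad ε δ i j a) * 2 ^ (b * (I + W * J))
      = ((a * ((2 ^ (b * (I + i)) + ε * 2 ^ (b * (I - i)))
          * (2 ^ (b * W * (J + j)) + δ * 2 ^ (b * W * (J - j)))) : ℤ) : ℚ) := by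
  have h2 : (2 : ℚ) ≠ 0 := by norm_num
  simp only [quad, map_add, ev_single]
  obtain ⟨x, rfl⟩ := Nat.exists_eq_add_of_le hi
  obtain ⟨y, rfl⟩ := Nat.exists_eq_add_of_le hj
  simp only [Nat.add_sub_cancel_left]
  push_cast
  have key : ∀ s t : ℤ, ∀ m n : ℕ, (s + (i + x) = m) → (t + (j + y) = n) →
      (2 : ℚ) ^ ((b : ℤ) * (s + W * t)) * 2 ^ (b * (i + x + W * (j + y)))
        = 2 ^ (b * m) * 2 ^ (b * W * n) := by
    intro s t m n hm hn
    rw [← zpow_natCast, ← zpow_natCast, ← zpow_natCast, ← zpow_add₀ h2, ← zpow_add₀ h2]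
    congr 1
    push_cast
    rw [← hm, ← hn]
    ring
  have k1 := key i j (i + x + i) (j + y + j) (by push_cast; ring) (by push_cast; ring)
  have k2 := key (-i) j x (j + y + j) (by ring) (by push_cast; ring)
  have k3 := key i (-j) (i + x + i) y (by push_cast; ring) (by ring)
  have k4 := key (-i) (-j) x y (by ring) (by ring)
  rw [add_mul, add_mul, add_mul, mul_assoc (a : ℚ), mul_assoc ((ε : ℚ) * a),
    mul_assoc ((δ : ℚ) * a), mul_assoc ((ε : ℚ) * δ * a), k1, k2, k3, k4]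
  ring

theorem quad_box (ε δ : ℤ) {i j I J : ℕ} (a : ℤ) (hi : i ≤ I) (hj : j ≤ J) :
    InBox (quad ε δ i j a) I J := by
  refine ((InBox.add ?_ ?_).add ?_).add ?_
  all_goals
    refine InBox.single ?_ ?_
    · show Int.natAbs _ ≤ _; omega
    · show Int.natAbs _ ≤ _; omega

theorem quad_nrm (ε δ : ℤ) (hε : ε.natAbs ≤ 1) (hδ : δ.natAbs ≤ 1) (i j : ℕ) (a : ℤ) :
    nrm (quad ε δ i j a) ≤ 4 * a.natAbs := by
  have h1 : (ε * a).natAbs ≤ a.natAbs := by
    rw [Int.natAbs_mul]; exact (Nat.mul_le_mul_right _ hε).trans (by rw [one_mul])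
  have h2 : (δ * a).natAbs ≤ a.natAbs := by
    rw [Int.natAbs_mul]; exact (Nat.mul_le_mul_right _ hδ).trans (by rw [one_mul])
  have h3 : (ε * δ * a).natAbs ≤ a.natAbs := by
    rw [Int.natAbs_mul, Int.natAbs_mul]
    exact (Nat.mul_le_mul_right _ (Nat.mul_le_mul hε hδ)).trans (by rw [one_mul, one_mul])
  have := nrm_add (single ((i : ℤ), (j : ℤ)) a + single (-(i : ℤ), (j : ℤ)) (ε * a)
    + single ((i : ℤ), -(j : ℤ)) (δ * a)) (single (-(i : ℤ), -(j : ℤ)) (ε * δ * a))
  have h5 := nrm_add (single ((i : ℤ), (j : ℤ)) a + single (-(i : ℤ), (j : ℤ)) (ε * a))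
    (single ((i : ℤ), -(j : ℤ)) (δ * a))
  have h6 := nrm_add (single ((i : ℤ), (j : ℤ)) a) (single (-(i : ℤ), (j : ℤ)) (ε * a))
  have h7 := nrm_single ((i : ℤ), (j : ℤ)) a
  have h8 := nrm_single (-(i : ℤ), (j : ℤ)) (ε * a)
  have h9 := nrm_single ((i : ℤ), -(j : ℤ)) (δ * a)
  have h10 := nrm_single (-(i : ℤ), -(j : ℤ)) (ε * δ * a)
  rw [quad]
  omega

theorem qf_le (N : List ℕ) (w r i j : ℕ) : (qf N w r i j).natAbs ≤ 2 ^ w := by
  rw [qf, dgN_eq]
  have h1 : nthD N j / 2 ^ (w * i) % 2 ^ w < 2 ^ w := Nat.mod_lt _ (Nat.two_pow_pos w)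
  have h2 : (2 : ℤ) ^ (w - 1) = ((2 ^ (w - 1) : ℕ) : ℤ) := by push_cast; ring
  have h3 : 2 ^ (w - 1) ≤ 2 ^ w := Nat.pow_le_pow_right (by norm_num) (Nat.sub_le _ _)
  rw [h2]
  generalize nthD N j / 2 ^ (w * i) % 2 ^ w = y at h1 ⊢
  generalize 2 ^ (w - 1) = v at h3 ⊢
  generalize 2 ^ w = u at h1 h3 ⊢
  omega

/-- a priori norm bound of the table -/
def tabS (w a c I J : ℕ) : ℕ := 4 * ((I + 1) * (J + 1) * (I ^ a * J ^ c * 2 ^ w))

/-- the exact cell of `2^-p DD a c (tab I J ε δ (qf N w (I+1)))` -/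
def tabC (P : Par) (w a c I J : ℕ) (ε δ : ℤ) (p : ℕ) (N : List ℕ) : Option Cell :=
  if Nat.ble I P.I0 && Nat.ble J P.J0 && Nat.ble ε.natAbs 1 && Nat.ble δ.natAbs 1 then
    some ⟨tabZ P.b P.W w a c I J ε δ N, I, J, up P (tabS w a c I J), 0, p⟩
  else none

theorem tab_rep {P : Par} (w a c I J : ℕ) (ε δ : ℤ) (N : List ℕ) (hI : I ≤ P.I0) (hJ : J ≤ P.J0) :
    Rep P (DD a c (tab I J ε δ (qf N w (I + 1)))) (tabZ P.b P.W w a c I J ε δ N) I J := by
  refine ⟨?_, hI, hJ, ?_⟩
  · rw [tab_DD, tab]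
    refine InBox.sum fun j hj => InBox.sum fun i hi => ?_
    rw [Finset.mem_range] at hi hj
    exact quad_box _ _ _ (by omega) (by omega)
  · rw [tab_DD, tab, map_sum, Finset.sum_mul, tabZ_eq]
    push_cast
    refine Finset.sum_congr rfl fun j hj => ?_
    rw [map_sum, Finset.sum_mul]
    refine Finset.sum_congr rfl fun i hi => ?_
    rw [Finset.mem_range] at hi hj
    rw [ev_quad P.b P.W _ _ _ (by omega : i ≤ I) (by omega : j ≤ J)]
    push_cast
    ring

theorem tab_nrm (w a c I J : ℕ) (ε δ : ℤ) (hε : ε.natAbs ≤ 1) (hδ : δ.natAbs ≤ 1) (N : List ℕ) :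
    nrm (DD a c (tab I J ε δ (qf N w (I + 1)))) ≤ tabS w a c I J := by
  rw [tab_DD, tab, tabS]
  refine (nrm_sum _ _).trans ?_
  refine (Finset.sum_le_sum fun j hj => (nrm_sum _ _).trans (Finset.sum_le_card_nsmul _ _
    (4 * (I ^ a * J ^ c * 2 ^ w)) fun i hi => ?_)).trans ?_
  · rw [Finset.mem_range] at hi hj
    refine (quad_nrm _ _ ?_ ?_ _ _ _).trans (Nat.mul_le_mul_left _ ?_)
    · rw [Int.natAbs_mul, Int.natAbs_pow]; simpa using hε
    · rw [Int.natAbs_mul, Int.natAbs_pow]; simpa using hδ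
    · rw [Int.natAbs_mul, Int.natAbs_natCast]
      exact Nat.mul_le_mul (Nat.mul_le_mul (Nat.pow_le_pow_left (by omega) _)
        (Nat.pow_le_pow_left (by omega) _)) (qf_le _ _ _ _ _)
  · rw [Finset.sum_const, Finset.card_range, Finset.card_range, smul_eq_mul, smul_eq_mul]
    apply le_of_eq
    ring

section
variable {P : Par} {W : Type*} [NormedCommRing W] [NormedAlgebra ℝ W]

/-- the element of the algebra given by the table -/
noncomputable def tabW (A : Alg P W) (w a c I J : ℕ) (ε δ : ℤ) (p : ℕ) (N : List ℕ) : W :=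
  (((2 : ℝ) ^ p)⁻¹) • A.ι (DD a c (tab I J ε δ (qf N w (I + 1))))

theorem tabC_sound (A : Alg P W) {w a c I J : ℕ} {ε δ : ℤ} {p : ℕ} {N : List ℕ} {C : Cell}
    (h : tabC P w a c I J ε δ p N = some C) : Enc A (tabW A w a c I J ε δ p N) C := by
  unfold tabC at h
  split at h
  · rename_i h0
    simp only [Bool.and_eq_true, Nat.ble_eq] at h0
    obtain ⟨⟨⟨h1, h2⟩, h3⟩, h4⟩ := h0
    injection h with h
    subst h
    have hr := tab_rep (P := P) w a c I J ε δ N h1 h2
    have hn := tab_nrm w a c I J ε δ h3 h4 N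
    refine ⟨_, hr, hn.trans (le_up P _), A.bd' hr.box h1 h2 hn, ?_⟩
    show ‖((2 : ℝ) ^ p) • tabW A w a c I J ε δ p N - _‖ ≤ ((0 : ℕ) : ℝ)
    rw [tabW, smul_smul, mul_inv_cancel₀ (by positivity), one_smul, sub_self, norm_zero]
    simp
  · exact absurd h (by simp)

end

end Pool.Agent.H.MP_ce2c94_gt.h46
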