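import Mathlib
import Pool.Agent.H.MP_ce2c94_gt.h46.Tab

/-!
# Straight line programs over cells, with one soundness theorem

A program is a list of instructions; the value of each instruction is appended to the list of
registers (absolute indices).  `run` computes the cells, `vals` the exact values in the algebra;
`run_sound`: every register is enclosed.  `chkOut`: the final test, a `Bool` for `decide +kernel`.
-/

namespace Pool.Agent.H.MP_ce2c94_gt.h46

open AddMonoidAlgebra

/-- a base function: digit width, box, parities, precision, row literals -/
structure Base where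
  w : ℕ
  I : ℕ
  J : ℕ
  ε : ℤ
  δ : ℤ
  p : ℕ
  N : List ℕ

/-- instructions; register numbers are absolute -/
inductive Ins
  | tab (n a c : ℕ)
  | cst (n : ℤ)
  | add (i j : ℕ)
  | sub (i j : ℕ)
  | mul (i j : ℕ)
  | smul (n : ℤ) (i : ℕ)
  | hlf (t i : ℕ)
  | rnd (t I J i : ℕ)
  | mulr (i j t I J : ℕ)

/-- evaluates all the fields -/
def forceC {α : Type*} (c : Cell) (k : Cell → α) : α :=
  match c with
  | ⟨z, I, J, s, e, p⟩ => forceZ z fun z => forceN I fun I => forceN J fun J => forceN s fun s =>
    forceN e fun e => forceN p fun p => k ⟨z, I, J, s, e, p⟩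

theorem forceC_eq {α : Type*} (c : Cell) (k : Cell → α) : forceC c k = k c := by
  cases c
  simp only [forceC, forceN_eq, forceZ_eq]

/-- the integer constant -/
def cstC (P : Par) (n : ℤ) : Cell := ⟨n, 0, 0, up P n.natAbs, 0, 0⟩

/-- sum after aligning the precisions -/
def addA (P : Par) (a b : Cell) : Option Cell :=
  forceN (b.p - a.p) fun s => forceN (a.p - b.p) fun t => addC P (preC s a) (preC t b)

/-- negative -/
def negC (a : Cell) : Cell := ⟨-a.z, a.I, a.J, a.s, a.e, a.p⟩

/-- division by `2^t` -/
def hlfC (t : ℕ) (a : Cell) : Cell := ⟨a.z, a.I, a.J, a.s, a.e, a.p + t⟩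

/-- one instruction -/
def step (P : Par) (bs : List Base) (st : List Cell) : Ins → Option Cell
  | .tab n a c => match nth bs n with
    | some B => tabC P B.w a c B.I B.J B.ε B.δ B.p B.N
    | none => none
  | .cst n => some (cstC P n)
  | .add i j => match nth st i with
    | some x => match nth st j with
      | some y => addA P x y
      | none => none
    | none => none
  | .sub i j => match nth st i with
    | some x => match nth st j with
      | some y => addA P x (negC y)
      | none => none
    | none => none
  | .mul i j => match nth st i with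
    | some x => match nth st j with
      | some y => mulC P x y
      | none => none
    | none => none
  | .smul n i => match nth st i with
    | some x => some (smulC n x)
    | none => none
  | .hlf t i => match nth st i with
    | some x => some (hlfC t x)
    | none => none
  | .rnd t I J i => match nth st i with
    | some x => roundC P t I J x
    | none => none
  | .mulr i j t I J => match nth st i with
    | some x => match nth st j with
      | some y => match mulC P x y with
        | some z => forceC z fun z => match normC P z with
          | some z => forceC z fun z => roundC P t I J z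
          | none => none
        | none => none
      | none => none
    | none => none

/-- recompute the norm if possible -/
def autoN (P : Par) (c : Cell) : Cell :=
  match normC P c with
  | some d => d
  | none => c

/-- run the program -/
def run (P : Par) (bs : List Base) : List Ins → List Cell → Option (List Cell)
  | [], st => some st
  | i :: is, st => match step P bs st i with
    | some c => forceC c fun c => forceC (autoN P c) fun c => run P bs is (st ++ [c])
    | none => none

section
variable {P : Par} {W : Type*} [NormedCommRing W] [NormedAlgebra ℝ W] {A : Alg P W}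

/-- the exact value of an instruction -/
noncomputable def Ins.val (A : Alg P W) (bs : List Base) (vs : List W) : Ins → W
  | .tab n a c => match nth bs n with
    | some B => tabW A B.w a c B.I B.J B.ε B.δ B.p B.N
    | none => 0
  | .cst n => (n : W)
  | .add i j => (nth vs i).getD 0 + (nth vs j).getD 0
  | .sub i j => (nth vs i).getD 0 - (nth vs j).getD 0
  | .mul i j => (nth vs i).getD 0 * (nth vs j).getD 0
  | .smul n i => n • (nth vs i).getD 0
  | .hlf t i => (((2 : ℝ) ^ t)⁻¹) • (nth vs i).getD 0
  | .rnd _ _ _ i => (nth vs i).getD 0
  | .mulr i j _ _ _ => (nth vs i).getD 0 * (nth vs j).getD 0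

/-- the exact values of a program -/
noncomputable def vals (A : Alg P W) (bs : List Base) : List Ins → List W → List W
  | [], vs => vs
  | i :: is, vs => vals A bs is (vs ++ [i.val A bs vs])

theorem cstC_sound (A : Alg P W) (n : ℤ) : Enc A (n : W) (cstC P n) := by
  have h0 : (single ((0 : ℤ), (0 : ℤ)) n : T) = (n : T) := by
    rw [← Int.cast_id (n := n)]
    exact (AddMonoidAlgebra.intCast_def n).symm
  have hb : InBox (single ((0 : ℤ), (0 : ℤ)) n) 0 0 := InBox.single (by simp) (by simp)
  have hn := nrm_single ((0 : ℤ), (0 : ℤ)) n
  refine ⟨single (0, 0) n, ⟨hb, Nat.zero_le _, Nat.zero_le _, ?_⟩, hn.trans (le_up P _),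
    A.bd' hb (Nat.zero_le _) (Nat.zero_le _) hn, ?_⟩
  · rw [ev_single]; simp [cstC]
  · show ‖((2 : ℝ) ^ 0) • (n : W) - _‖ ≤ ((0 : ℕ) : ℝ)
    rw [h0, map_intCast, pow_zero, one_smul, sub_self, norm_zero]
    simp

theorem addA_sound {a b c : Cell} {x y : W} (ha : Enc A x a) (hb : Enc A y b)
    (h : addA P a b = some c) : Enc A (x + y) c := by
  unfold addA at h
  rw [forceN_eq, forceN_eq] at h
  exact addC_sound (preC_sound ha) (preC_sound hb) h

theorem negC_sound {a : Cell} {x : W} (ha : Enc A x a) : Enc A (-x) (negC a) := by
  obtain ⟨u, u1, u2, u3, u4⟩ := ha.ex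
  refine ⟨-u, u1.neg, by rw [nrm_neg]; exact u2, by rw [map_neg, norm_neg]; exact u3, ?_⟩
  rw [map_neg, smul_neg, ← neg_sub', norm_neg]
  exact u4

theorem hlfC_sound {t : ℕ} {a : Cell} {x : W} (ha : Enc A x a) :
    Enc A ((((2 : ℝ) ^ t)⁻¹) • x) (hlfC t a) := by
  obtain ⟨u, u1, u2, u3, u4⟩ := ha.ex
  refine ⟨u, u1, u2, u3, ?_⟩
  show ‖((2 : ℝ) ^ (a.p + t)) • ((((2 : ℝ) ^ t)⁻¹) • x) - A.ι u‖ ≤ a.e
  rw [smul_smul, pow_add, mul_assoc, mul_inv_cancel₀ (by positivity), mul_one]
  exact u4

theorem autoN_sound (hP : P.Ok) {c : Cell} {x : W} (h : Enc A x c) : Enc A x (autoN P c) := by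
  unfold autoN
  split
  · rename_i d hd
    exact normC_sound hP h hd
  · exact h

theorem nth_forall {vs : List W} {st : List Cell} (h : List.Forall₂ (Enc A) vs st) {i : ℕ}
    {c : Cell} (hc : nth st i = some c) : ∃ x, nth vs i = some x ∧ Enc A x c := by
  induction h generalizing i with
  | nil => simp [nth] at hc
  | cons hx _ ih =>
    rcases i with _ | i
    · simp only [nth, Option.some.injEq] at hc ⊢
      exact ⟨_, rfl, hc ▸ hx⟩
    · simp only [nth] at hc ⊢
      exact ih hc

theorem step_sound (hP : P.Ok) {bs : List Base} {vs : List W} {st : List Cell}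
    (h : List.Forall₂ (Enc A) vs st) {ins : Ins} {c : Cell} (hc : step P bs st ins = some c) :
    Enc A (ins.val A bs vs) c := by
  cases ins with
  | tab n a c' =>
    simp only [step, Ins.val] at hc ⊢
    split at hc
    · rename_i B hB
      exact tabC_sound A hc
    · exact absurd hc (by simp)
  | cst n =>
    simp only [step, Option.some.injEq] at hc
    rw [← hc]
    exact cstC_sound A n
  | add i j =>
    simp only [step, Ins.val] at hc ⊢
    split at hc
    · rename_i x hx
      split at hc
      · rename_i y hy
        obtain ⟨u, hu, hu'⟩ := nth_forall h hx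
        obtain ⟨v, hv, hv'⟩ := nth_forall h hy
        rw [hu, hv]
        exact addA_sound hu' hv' hc
      · exact absurd hc (by simp)
    · exact absurd hc (by simp)
  | sub i j =>
    simp only [step, Ins.val] at hc ⊢
    split at hc
    · rename_i x hx
      split at hc
      · rename_i y hy
        obtain ⟨u, hu, hu'⟩ := nth_forall h hx
        obtain ⟨v, hv, hv'⟩ := nth_forall h hy
        rw [hu, hv]
        simp only [Option.getD_some]
        rw [sub_eq_add_neg]
        exact addA_sound hu' (negC_sound hv') hc
      · exact absurd hc (by simp)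
    · exact absurd hc (by simp)
  | mul i j =>
    simp only [step, Ins.val] at hc ⊢
    split at hc
    · rename_i x hx
      split at hc
      · rename_i y hy
        obtain ⟨u, hu, hu'⟩ := nth_forall h hx
        obtain ⟨v, hv, hv'⟩ := nth_forall h hy
        rw [hu, hv]
        exact mulC_sound hu' hv' hc
      · exact absurd hc (by simp)
    · exact absurd hc (by simp)
  | smul n i =>
    simp only [step, Ins.val] at hc ⊢
    split at hc
    · rename_i x hx
      obtain ⟨u, hu, hu'⟩ := nth_forall h hx
      rw [hu]
      simp only [Option.some.injEq] at hc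
      rw [← hc]
      exact smulC_sound hu'
    · exact absurd hc (by simp)
  | hlf t i =>
    simp only [step, Ins.val] at hc ⊢
    split at hc
    · rename_i x hx
      obtain ⟨u, hu, hu'⟩ := nth_forall h hx
      rw [hu]
      simp only [Option.some.injEq] at hc
      rw [← hc]
      exact hlfC_sound hu'
    · exact absurd hc (by simp)
  | rnd t I J i =>
    simp only [step, Ins.val] at hc ⊢
    split at hc
    · rename_i x hx
      obtain ⟨u, hu, hu'⟩ := nth_forall h hx
      rw [hu]
      exact roundC_sound hP hu' hc
    · exact absurd hc (by simp)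
  | mulr i j t I J =>
    simp only [step, Ins.val] at hc ⊢
    split at hc
    · rename_i x hx
      split at hc
      · rename_i y hy
        split at hc
        · rename_i z hz
          rw [forceC_eq] at hc
          split at hc
          · rename_i z' hz'
            rw [forceC_eq] at hc
            obtain ⟨u, hu, hu'⟩ := nth_forall h hx
            obtain ⟨v, hv, hv'⟩ := nth_forall h hy
            rw [hu, hv]
            exact roundC_sound hP (normC_sound hP (mulC_sound hu' hv' hz) hz') hc
          · exact absurd hc (by simp)
        · exact absurd hc (by simp)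
      · exact absurd hc (by simp)
    · exact absurd hc (by simp)

theorem run_sound (hP : P.Ok) (bs : List Base) : ∀ (is : List Ins) (vs : List W) (st st' : List Cell),
    List.Forall₂ (Enc A) vs st → run P bs is st = some st' →
    List.Forall₂ (Enc A) (vals A bs is vs) st'
  | [], vs, st, st', h, hr => by
    simp only [run, Option.some.injEq] at hr
    rw [← hr]; exact h
  | i :: is, vs, st, st', h, hr => by
    simp only [run] at hr
    split at hr
    · rename_i c hc
      rw [forceC_eq, forceC_eq] at hr
      refine run_sound hP bs is _ _ _ ?_ hr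
      refine List.rel_append h (List.Forall₂.cons ?_ List.Forall₂.nil)
      exact autoN_sound hP (step_sound hP h hc)
    · exact absurd hr (by simp)

/-! ### final tests -/

/-- requested bound: register `i` has norm at most `n / 2^q` -/
structure Out where
  i : ℕ
  n : ℕ
  q : ℕ

/-- all the requested bounds hold -/
def chkOut (st : List Cell) : List Out → Bool
  | [] => true
  | o :: os => (match nth st o.i with
    | some c => Nat.ble ((c.s + c.e) * 2 ^ o.q) (o.n * 2 ^ c.p)
    | none => false) && chkOut st os

/-- the complete check, to be proved by `decide +kernel` -/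
def check (b W h I0 J0 k : ℕ) (bs : List Base) (is : List Ins) (os : List Out) : Bool :=
  mkPar b W h I0 J0 k fun P => P.ok && (match run P bs is [] with
    | some st => chkOut st os
    | none => false)

/-- the parameters -/
def par (b W h I0 J0 k : ℕ) : Par := mkPar b W h I0 J0 k id

theorem mkPar_eq {α : Type*} (b W h I0 J0 k : ℕ) (f : Par → α) :
    mkPar b W h I0 J0 k f = f (par b W h I0 J0 k) := by
  simp only [par, mkPar, forceN_eq, id]

theorem chkOut_sound {vs : List W} {st : List Cell} (h : List.Forall₂ (Enc A) vs st) :
    ∀ os : List Out, chkOut st os = true → ∀ o ∈ os, ∀ x, nth vs o.i = some x →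
      ‖x‖ ≤ (o.n : ℝ) / 2 ^ o.q
  | [], _, o, ho, _, _ => absurd ho (by simp)
  | o' :: os, hc, o, ho, x, hx => by
    simp only [chkOut, Bool.and_eq_true] at hc
    rcases List.mem_cons.1 ho with rfl | ho
    · obtain ⟨hc1, _⟩ := hc
      split at hc1
      · rename_i c hcc
        rw [Nat.ble_eq] at hc1
        obtain ⟨y, hy, hy'⟩ := nth_forall h hcc
        rw [hx] at hy
        injection hy with hy
        subst hy
        refine hy'.norm_le.trans ?_
        rw [div_le_div_iff₀ (by positivity) (by positivity)]
        exact_mod_cast hc1
      · exact absurd hc1 (by simp)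
    · exact chkOut_sound h os hc.2 o ho x hx

/-- SOUNDNESS: the bounds of the final test hold for the exact values of the program -/
theorem check_sound {b W' h I0 J0 k : ℕ} (A : Alg (par b W' h I0 J0 k) W) {bs : List Base}
    {is : List Ins} {os : List Out} (hc : check b W' h I0 J0 k bs is os = true) :
    ∀ o ∈ os, ∀ x, nth (vals A bs is []) o.i = some x → ‖x‖ ≤ (o.n : ℝ) / 2 ^ o.q := by
  unfold check at hc
  rw [mkPar_eq, Bool.and_eq_true] at hc
  obtain ⟨h1, h2⟩ := hc
  split at h2
  · rename_i st hst
    exact chkOut_sound (run_sound (Par.ok_iff _ h1) bs is [] [] st List.Forall₂.nil hst) os h2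
  · exact absurd h2 (by simp)

end

end Pool.Agent.H.MP_ce2c94_gt.h46
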